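import Pool.Agent.H353R2.FB

set_option autoImplicit false

/-! # The mean square discrepancy of the Farey sequence -/

namespace Pool.Agent.R305.FM

open MeasureTheory Filter Topology Set
open H332.FL (sw JJ JJ_eq quad_expand)
open H353.FB

/-- the mean square discrepancy of the Farey sequence of order `n` -/
noncomputable def DD (n : ℕ) : ℝ := ∫ t in (0 : ℝ)..1, (cnt n t - ((farey n).card : ℝ) * t) ^ 2

/-- `∑_{m ≤ y} M(y/m)/m` -/
noncomputable def HH (y : ℝ) : ℝ := ∑ m ∈ Finset.Icc 1 ⌊y⌋₊, Mx (y / m) / m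

/-- `∑_{d ∣ g} μ(d)/d²` -/
noncomputable def wt (g : ℕ) : ℝ := ∑ d ∈ g.divisors, mu d / (d : ℝ) ^ 2

lemma sum_inv_sq_le (n : ℕ) : ∑ d ∈ Finset.Icc 2 n, 1 / (d : ℝ) ^ 2 ≤ 1 := by
  have h : ∀ n : ℕ, ∑ d ∈ Finset.Icc 2 (n + 1), 1 / (d : ℝ) ^ 2 ≤ 1 - 1 / ((n : ℝ) + 1) := by
    intro n
    induction n with
    | zero => simp
    | succ n ih =>
      rw [Finset.sum_Icc_succ_top (by omega)]
      have h1 : 1 / (((n + 1 + 1 : ℕ) : ℝ)) ^ 2 ≤ 1 / ((n : ℝ) + 1) - 1 / ((n : ℝ) + 1 + 1) := by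
        push_cast
        have h2 : (0 : ℝ) < (n : ℝ) + 1 := by positivity
        rw [div_sub_div _ _ (by positivity) (by positivity), div_le_div_iff₀ (by positivity) (by positivity)]
        nlinarith
      push_cast at h1 ⊢
      linarith
  rcases n with _ | n
  · simp
  · have := h n
    have h2 : 0 ≤ 1 / ((n : ℝ) + 1) := by positivity
    linarith

lemma wt_mem {g : ℕ} (hg : 1 ≤ g) : 0 ≤ wt g ∧ wt g ≤ 2 := by
  have h1 : g.divisors = insert 1 (g.divisors.erase 1) := by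
    rw [Finset.insert_erase]
    exact Nat.one_mem_divisors.2 (by omega)
  have h2 : wt g = 1 + ∑ d ∈ g.divisors.erase 1, mu d / (d : ℝ) ^ 2 := by
    unfold wt
    conv_lhs => rw [h1]
    rw [Finset.sum_insert (by simp)]
    simp [mu]
  have h3 : |∑ d ∈ g.divisors.erase 1, mu d / (d : ℝ) ^ 2| ≤ 1 := by
    refine (Finset.abs_sum_le_sum_abs _ _).trans ?_
    refine le_trans ?_ (sum_inv_sq_le g)
    calc ∑ d ∈ g.divisors.erase 1, |mu d / (d : ℝ) ^ 2| ≤ ∑ d ∈ g.divisors.erase 1, 1 / (d : ℝ) ^ 2 := by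
          refine Finset.sum_le_sum fun d _ => ?_
          rw [abs_div, abs_of_nonneg (by positivity : (0 : ℝ) ≤ (d : ℝ) ^ 2)]
          gcongr
          exact abs_mu_le d
      _ ≤ _ := by
          apply Finset.sum_le_sum_of_subset_of_nonneg
          · intro d hd
            rw [Finset.mem_erase, Nat.mem_divisors] at hd
            rw [Finset.mem_Icc]
            have := Nat.pos_of_dvd_of_pos hd.2.1 (by omega)
            have := Nat.le_of_dvd (by omega) hd.2.1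
            omega
          · intro _ _ _
            positivity
  have h4 := abs_le.1 h3
  rw [h2]
  constructor <;> linarith [h4.1, h4.2]

/-- `∑_{g ∣ k} g² wt g = k²` -/
lemma sum_wt {k : ℕ} (hk : 1 ≤ k) : ∑ g ∈ k.divisors, (g : ℝ) ^ 2 * wt g = (k : ℝ) ^ 2 := by
  -- swap the sums
  have h1 : ∑ g ∈ k.divisors, (g : ℝ) ^ 2 * wt g =
      ∑ g ∈ k.divisors, ∑ p ∈ g.divisorsAntidiagonal, mu p.1 * ((p.2 : ℕ) : ℝ) ^ 2 := by
    refine Finset.sum_congr rfl fun g hg => ?_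
    have hg0 : 0 < g := Nat.pos_of_mem_divisors hg
    rw [Nat.sum_divisorsAntidiagonal (f := fun a b => mu a * ((b : ℕ) : ℝ) ^ 2)]
    unfold wt
    rw [Finset.mul_sum]
    refine Finset.sum_congr rfl fun d hd => ?_
    have hd1 := Nat.dvd_of_mem_divisors hd
    have hd0 : (0 : ℝ) < d := by exact_mod_cast Nat.pos_of_mem_divisors hd
    rw [Nat.cast_div hd1 (by positivity)]
    field_simp
  rw [h1]
  set F : ArithmeticFunction ℝ := ⟨fun n => mu n, by simp [mu]⟩ with hF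
  set G : ArithmeticFunction ℝ := ⟨fun n => (n : ℝ) ^ 2, by simp⟩ with hG
  have e1 : ∀ g : ℕ, ∑ p ∈ g.divisorsAntidiagonal, mu p.1 * ((p.2 : ℕ) : ℝ) ^ 2 = (F * G) g := by
    intro g
    rw [ArithmeticFunction.mul_apply]
    rfl
  simp_rw [e1]
  have e2 : ∑ g ∈ k.divisors, (F * G) g = ((ArithmeticFunction.zeta : ArithmeticFunction ℝ) * (F * G)) k := by
    rw [ArithmeticFunction.coe_zeta_mul_apply]
  have e3 : (ArithmeticFunction.zeta : ArithmeticFunction ℝ) * F = 1 := by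
    have h2 : F = ((ArithmeticFunction.moebius : ArithmeticFunction ℤ) : ArithmeticFunction ℝ) := by
      ext n
      rfl
    rw [h2]
    exact ArithmeticFunction.coe_zeta_mul_coe_moebius
  rw [e2, ← mul_assoc, e3, one_mul]
  rfl

lemma gcd_sq (n : ℕ) {a b : ℕ} (ha : a ∈ Finset.Icc 1 n) (hb : 1 ≤ b) :
    ((Nat.gcd a b : ℕ) : ℝ) ^ 2 =
      ∑ g ∈ Finset.Icc 1 n, (if g ∣ a then (1:ℝ) else 0) * (if g ∣ b then 1 else 0) * ((g : ℝ) ^ 2 * wt g) := by
  rw [Finset.mem_Icc] at ha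
  have hg0 : 1 ≤ Nat.gcd a b := Nat.gcd_pos_of_pos_left b ha.1
  rw [← sum_wt hg0]
  have h1 : (Nat.gcd a b).divisors = (Finset.Icc 1 n).filter (fun g => g ∣ a ∧ g ∣ b) := by
    ext g
    rw [Nat.mem_divisors, Finset.mem_filter, Finset.mem_Icc, Nat.dvd_gcd_iff]
    constructor
    · rintro ⟨⟨h1, h2⟩, -⟩
      have := Nat.pos_of_dvd_of_pos h1 (by omega)
      have := Nat.le_of_dvd (by omega) h1
      exact ⟨⟨by omega, by omega⟩, h1, h2⟩
    · rintro ⟨-, h1, h2⟩
      exact ⟨⟨h1, h2⟩, by omega⟩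
  rw [h1, Finset.sum_filter]
  refine Finset.sum_congr rfl fun g _ => ?_
  by_cases h2 : g ∣ a <;> by_cases h3 : g ∣ b <;> simp [h2, h3]

lemma HH_eq (n g : ℕ) (hg : 1 ≤ g) : ∑ a ∈ Finset.Icc 1 n, (if g ∣ a then Mx ((n : ℝ) / a) / a else 0) =
    HH ((n : ℝ) / g) / g := by
  unfold HH
  rw [← Finset.sum_filter, Finset.sum_div, Nat.floor_div_natCast, Nat.floor_natCast]
  symm
  refine Finset.sum_nbij' (fun k => g * k) (fun a => a / g) ?_ ?_ ?_ ?_ ?_
  · intro k hk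
    rw [Finset.mem_Icc, Nat.le_div_iff_mul_le (by omega)] at hk
    rw [Finset.mem_filter, Finset.mem_Icc]
    refine ⟨⟨Nat.mul_pos (by omega) hk.1, ?_⟩, dvd_mul_right g k⟩
    rw [mul_comm]; exact hk.2
  · intro a ha
    rw [Finset.mem_filter, Finset.mem_Icc] at ha
    obtain ⟨⟨h1, h2⟩, ⟨k, rfl⟩⟩ := ha
    rw [Nat.mul_div_cancel_left k (by omega), Finset.mem_Icc, Nat.le_div_iff_mul_le (by omega), mul_comm]
    refine ⟨Nat.pos_of_ne_zero (by rintro rfl; simp at h1), h2⟩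
  · intro k _
    exact Nat.mul_div_cancel_left k (by omega)
  · intro a ha
    rw [Finset.mem_filter] at ha
    exact Nat.mul_div_cancel' ha.2
  · intro k hk
    rw [Finset.mem_Icc] at hk
    have hk0 : (k : ℝ) ≠ 0 := by exact_mod_cast (show k ≠ 0 by omega)
    have hg0 : (g : ℝ) ≠ 0 := by exact_mod_cast (show g ≠ 0 by omega)
    push_cast
    rw [div_div, div_div, mul_comm (k : ℝ) (g : ℝ)]

lemma sw_ii (a b : ℝ) : IntervalIntegrable sw volume a b := by
  rw [intervalIntegrable_iff]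
  refine Integrable.mono' (g := fun _ => 1 / 2) (integrableOn_const (by simp [Set.uIoc]))
    H332.FL.measurable_sw.aestronglyMeasurable ?_
  exact Eventually.of_forall fun t => H332.FL.abs_sw_le _

lemma sw_int (d : ℕ) (hd : 1 ≤ d) : ∫ t in (0 : ℝ)..1, sw ((d : ℝ) * t) = 0 := by
  have hd0 : (d : ℝ) ≠ 0 := by exact_mod_cast (show d ≠ 0 by omega)
  rw [intervalIntegral.integral_comp_mul_left (fun t => sw t) hd0, mul_zero, mul_one]
  have hper : Function.Periodic sw 1 := fun x => by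
    have := H332.FL.sw_add_int x 1
    simpa using this
  have h1 := hper.intervalIntegral_add_zsmul_eq (d : ℤ) 0 (fun a b => sw_ii a b)
  have h2 : ∫ t in (0:ℝ)..1, sw t = 0 := by
    rw [intervalIntegral.integral_of_le zero_le_one, integral_Ioc_eq_integral_Ioo]
    have h3 : ∫ t in Ioo (0:ℝ) 1, sw t = ∫ t in Ioo (0:ℝ) 1, (t - 1 / 2) := by
      apply setIntegral_congr_fun measurableSet_Ioo
      intro t ht
      exact H332.FL.sw_of_mem ht.1.le ht.2
    rw [h3, ← integral_Ioc_eq_integral_Ioo, ← intervalIntegral.integral_of_le zero_le_one,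
      intervalIntegral.integral_sub (by simp) (by simp), integral_id]
    norm_num
  simp only [zero_add, zsmul_eq_mul, mul_one] at h1
  rw [h2] at h1
  have h4 : ∫ t in (0:ℝ)..(d : ℝ), sw t = 0 := by
    have := h1
    simpa using this
  rw [h4]
  simp

/-- the exact formula -/
theorem DD_eq {n : ℕ} (hn : 1 ≤ n) :
    DD n = 1 / 4 + (1 / 12) * ∑ g ∈ Finset.Icc 1 n, wt g * HH ((n : ℝ) / g) ^ 2 := by
  have h1 : DD n = ∫ t in (0 : ℝ)..1, ((∑ d ∈ Finset.Icc 1 n, Mx ((n : ℝ) / d) * sw (d * t)) ^ 2 +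
      ((∑ d ∈ Finset.Icc 1 n, Mx ((n : ℝ) / d) * sw (d * t)) + 1 / 4)) := by
    unfold DD
    apply intervalIntegral.integral_congr
    intro t ht
    rw [uIcc_of_le zero_le_one] at ht
    simp only
    rw [cnt_sub hn ht.1 ht.2]
    unfold Ef
    ring
  have hi : ∀ d ∈ Finset.Icc 1 n, IntervalIntegrable (fun t : ℝ => Mx ((n : ℝ) / d) * sw (d * t)) volume 0 1 := by
    intro d _
    apply IntervalIntegrable.const_mul
    rw [intervalIntegrable_iff_integrableOn_Ioc_of_le zero_le_one]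
    refine Integrable.mono' (g := fun _ => 1 / 2) (integrableOn_const (by simp))
      (H332.FL.measurable_sw_comp (by fun_prop)).aestronglyMeasurable ?_
    exact Eventually.of_forall fun t => H332.FL.abs_sw_le _
  have hisum : IntervalIntegrable (fun t : ℝ => ∑ d ∈ Finset.Icc 1 n, Mx ((n : ℝ) / d) * sw (d * t)) volume 0 1 := by
    have h := IntervalIntegrable.sum (Finset.Icc 1 n) hi
    have e : (∑ d ∈ Finset.Icc 1 n, fun t : ℝ => Mx ((n : ℝ) / d) * sw (d * t)) =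
        fun t => ∑ d ∈ Finset.Icc 1 n, Mx ((n : ℝ) / d) * sw (d * t) := by
      ext t; simp
    rw [← e]
    exact h
  have hisq : IntervalIntegrable (fun t : ℝ => (∑ d ∈ Finset.Icc 1 n, Mx ((n : ℝ) / d) * sw (d * t)) ^ 2)
      volume 0 1 := by
    rw [intervalIntegrable_iff_integrableOn_Ioc_of_le zero_le_one]
    refine Integrable.mono' (g := fun _ => (∑ d ∈ Finset.Icc 1 n, |Mx ((n : ℝ) / d)| * (1 / 2)) ^ 2)
      (integrableOn_const (by simp)) ?_ ?_
    · refine (Measurable.pow_const (Finset.measurable_sum _ fun d _ => ?_) 2).aestronglyMeasurable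
      exact (H332.FL.measurable_sw_comp (by fun_prop)).const_mul _
    · refine Eventually.of_forall fun t => ?_
      rw [norm_pow, Real.norm_eq_abs]
      gcongr
      refine (Finset.abs_sum_le_sum_abs _ _).trans (Finset.sum_le_sum fun d _ => ?_)
      rw [abs_mul]
      gcongr
      exact H332.FL.abs_sw_le _
  rw [h1, intervalIntegral.integral_add hisq (hisum.add intervalIntegrable_const),
    intervalIntegral.integral_add hisum intervalIntegrable_const, quad_expand,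
    intervalIntegral.integral_finsetSum hi]
  have h2 : ∀ d ∈ Finset.Icc 1 n, ∫ t in (0:ℝ)..1, Mx ((n : ℝ) / d) * sw (d * t) = 0 := by
    intro d hd
    rw [Finset.mem_Icc] at hd
    rw [intervalIntegral.integral_const_mul, sw_int d hd.1, mul_zero]
  rw [Finset.sum_congr rfl h2, Finset.sum_const_zero]
  have h3 : ∑ a ∈ Finset.Icc 1 n, ∑ b ∈ Finset.Icc 1 n, Mx ((n : ℝ) / a) * Mx ((n : ℝ) / b) * JJ a b =
      ∑ a ∈ Finset.Icc 1 n, ∑ b ∈ Finset.Icc 1 n, ∑ g ∈ Finset.Icc 1 n, (1 / 12) * ((g : ℝ) ^ 2 * wt g) *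
        (if g ∣ a then Mx ((n : ℝ) / a) / a else 0) * (if g ∣ b then Mx ((n : ℝ) / b) / b else 0) := by
    refine Finset.sum_congr rfl fun a ha => Finset.sum_congr rfl fun b hb => ?_
    have ha' := Finset.mem_Icc.1 ha
    have hb' := Finset.mem_Icc.1 hb
    have ha0 : (0 : ℝ) < a := by exact_mod_cast ha'.1
    have hb0 : (0 : ℝ) < b := by exact_mod_cast hb'.1
    rw [JJ_eq a b ha'.1 hb'.1, gcd_sq n ha hb'.1, Finset.sum_div, Finset.mul_sum]
    refine Finset.sum_congr rfl fun g _ => ?_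
    by_cases h2 : g ∣ a <;> by_cases h3 : g ∣ b <;> simp [h2, h3]
    field_simp
  rw [h3]
  have h4 : ∑ a ∈ Finset.Icc 1 n, ∑ b ∈ Finset.Icc 1 n, ∑ g ∈ Finset.Icc 1 n, (1 / 12) * ((g : ℝ) ^ 2 * wt g) *
        (if g ∣ a then Mx ((n : ℝ) / a) / a else 0) * (if g ∣ b then Mx ((n : ℝ) / b) / b else 0) =
      ∑ g ∈ Finset.Icc 1 n, (1 / 12) * ((g : ℝ) ^ 2 * wt g) *
        (∑ a ∈ Finset.Icc 1 n, if g ∣ a then Mx ((n : ℝ) / a) / a else 0) ^ 2 := by
    have h5 : ∀ a ∈ Finset.Icc 1 n, ∑ b ∈ Finset.Icc 1 n, ∑ g ∈ Finset.Icc 1 n,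
        (1 / 12) * ((g : ℝ) ^ 2 * wt g) *
        (if g ∣ a then Mx ((n : ℝ) / a) / a else 0) * (if g ∣ b then Mx ((n : ℝ) / b) / b else 0) =
        ∑ g ∈ Finset.Icc 1 n, ∑ b ∈ Finset.Icc 1 n, (1 / 12) * ((g : ℝ) ^ 2 * wt g) *
        (if g ∣ a then Mx ((n : ℝ) / a) / a else 0) * (if g ∣ b then Mx ((n : ℝ) / b) / b else 0) :=
      fun a _ => Finset.sum_comm
    rw [Finset.sum_congr rfl h5, Finset.sum_comm]
    refine Finset.sum_congr rfl fun g _ => ?_
    rw [sq (∑ a ∈ Finset.Icc 1 n, if g ∣ a then Mx ((n : ℝ) / a) / a else 0), Finset.sum_mul_sum,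
      Finset.mul_sum]
    refine Finset.sum_congr rfl fun a _ => ?_
    rw [Finset.mul_sum]
    refine Finset.sum_congr rfl fun b _ => by ring
  rw [h4, Finset.mul_sum]
  have h6 : ∫ t in (0:ℝ)..1, (1 / 4 : ℝ) = 1 / 4 := by simp
  rw [h6]
  have h7 : ∑ g ∈ Finset.Icc 1 n, (1 / 12) * ((g : ℝ) ^ 2 * wt g) *
        (∑ a ∈ Finset.Icc 1 n, if g ∣ a then Mx ((n : ℝ) / a) / a else 0) ^ 2 =
      ∑ g ∈ Finset.Icc 1 n, 1 / 12 * (wt g * HH ((n : ℝ) / g) ^ 2) := by
    refine Finset.sum_congr rfl fun g hg => ?_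
    rw [Finset.mem_Icc] at hg
    have hg0 : (0 : ℝ) < g := by exact_mod_cast hg.1
    rw [HH_eq n g hg.1]
    field_simp
  rw [h7]
  ring

end Pool.Agent.R305.FM
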