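import Pool.Agent.TH223.AP.A5
import Pool.Agent.R305.FM.F1

set_option autoImplicit false

/-! # Convolutions with a finite measure on the logarithms of the integers -/

namespace Pool.Agent.R305.FM

open MeasureTheory Filter Topology Set
open H353.FB

/-- measurable, locally bounded and `0` on the negative numbers -/
structure Ad (F : ℝ → ℂ) : Prop where
  meas : Measurable F
  neg : ∀ v : ℝ, v < 0 → F v = 0
  bdd : ∀ V : ℝ, ∃ B : ℝ, 0 ≤ B ∧ ∀ v : ℝ, v ≤ V → ‖F v‖ ≤ B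

/-- the convolution -/
noncomputable def cv (c : ℕ → ℂ) (F : ℝ → ℂ) (v : ℝ) : ℂ :=
  ∑ m ∈ Finset.Icc 1 ⌊Real.exp v⌋₊, c m * F (v - Real.log m)

/-- `m^(-3/2)` -/
noncomputable def am (m : ℕ) : ℝ := (m : ℝ) ^ (-(3 / 2 : ℝ))

lemma am_nonneg (m : ℕ) : 0 ≤ am m := by unfold am; positivity

lemma am_summable : Summable am := by
  unfold am
  exact Real.summable_nat_rpow.2 (by norm_num)

/-- the total mass -/
noncomputable def KK : ℝ := ∑' m : ℕ, am m

lemma KK_nonneg : 0 ≤ KK := tsum_nonneg am_nonneg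

lemma sum_am_le (S : Finset ℕ) : ∑ m ∈ S, am m ≤ KK := am_summable.sum_le_tsum S fun m _ => am_nonneg m

lemma cv_eq {F : ℝ → ℂ} (hF : Ad F) (c : ℕ → ℂ) {v : ℝ} {N : ℕ} (hN : ⌊Real.exp v⌋₊ ≤ N) :
    cv c F v = ∑ m ∈ Finset.Icc 1 N, c m * F (v - Real.log m) := by
  unfold cv
  apply Finset.sum_subset
  · exact Finset.Icc_subset_Icc_right hN
  · intro m hm hm2
    rw [Finset.mem_Icc] at hm hm2
    have h1 : ⌊Real.exp v⌋₊ < m := by
      by_contra h
      exact hm2 ⟨hm.1, by omega⟩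
    have h2 : Real.exp v < m := (Nat.floor_lt (Real.exp_pos v).le).1 h1
    have h3 : v < Real.log m := by
      rw [Real.lt_log_iff_exp_lt (by exact_mod_cast hm.1)]
      exact h2
    rw [hF.neg _ (by linarith), mul_zero]

lemma floor_mono {v V : ℝ} (h : v ≤ V) : ⌊Real.exp v⌋₊ ≤ ⌊Real.exp V⌋₊ :=
  Nat.floor_le_floor (Real.exp_le_exp.2 h)

lemma part_meas {F : ℝ → ℂ} (hF : Ad F) (c : ℕ → ℂ) (N : ℕ) :
    Measurable fun v : ℝ => ∑ m ∈ Finset.Icc 1 N, c m * F (v - Real.log m) := by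
  refine Finset.measurable_sum _ fun m _ => ?_
  exact (hF.meas.comp (measurable_id.sub_const _)).const_mul _

lemma cv_ad {F : ℝ → ℂ} (hF : Ad F) {c : ℕ → ℂ} (hc : ∀ m : ℕ, 1 ≤ m → ‖c m‖ ≤ am m) : Ad (cv c F) := by
  refine ⟨?_, ?_, ?_⟩
  · refine measurable_of_tendsto_metrizable (f := fun N : ℕ => fun v : ℝ =>
      ∑ m ∈ Finset.Icc 1 N, c m * F (v - Real.log m)) (fun N => part_meas hF c N) ?_
    rw [tendsto_pi_nhds]
    intro v
    refine tendsto_const_nhds.congr' ?_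
    filter_upwards [eventually_ge_atTop ⌊Real.exp v⌋₊] with N hN
    exact cv_eq hF c hN
  · intro v hv
    unfold cv
    have : ⌊Real.exp v⌋₊ = 0 := by
      rw [Nat.floor_eq_zero]
      have := Real.exp_lt_exp.2 hv
      rwa [Real.exp_zero] at this
    rw [this]
    simp
  · intro V
    obtain ⟨B, hB0, hB⟩ := hF.bdd V
    refine ⟨KK * B, mul_nonneg KK_nonneg hB0, fun v hv => ?_⟩
    unfold cv
    calc ‖∑ m ∈ Finset.Icc 1 ⌊Real.exp v⌋₊, c m * F (v - Real.log m)‖ ≤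
        ∑ m ∈ Finset.Icc 1 ⌊Real.exp v⌋₊, am m * B := by
          refine norm_sum_le_of_le _ fun m hm => ?_
          rw [Finset.mem_Icc] at hm
          rw [norm_mul]
          have h1 : 0 ≤ Real.log m := Real.log_nonneg (by exact_mod_cast hm.1)
          exact mul_le_mul (hc m hm.1) (hB _ (by linarith)) (norm_nonneg _) (am_nonneg m)
      _ = (∑ m ∈ Finset.Icc 1 ⌊Real.exp v⌋₊, am m) * B := by rw [Finset.sum_mul]
      _ ≤ KK * B := mul_le_mul_of_nonneg_right (sum_am_le _) hB0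

lemma Ad.int_sq {F : ℝ → ℂ} (hF : Ad F) (a b : ℝ) : IntervalIntegrable (fun v => ‖F v‖ ^ 2) volume a b := by
  obtain ⟨B, hB0, hB⟩ := hF.bdd (max a b)
  rw [intervalIntegrable_iff]
  refine Integrable.mono' (g := fun _ => B ^ 2) (integrableOn_const (by simp [Set.uIoc]))
    (hF.meas.norm.pow_const 2).aestronglyMeasurable ?_
  refine (ae_restrict_mem measurableSet_uIoc).mono fun v hv => ?_
  rw [norm_pow, norm_norm]
  have h1 : v ≤ max a b := hv.2
  have := hB v h1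
  gcongr

lemma shift_le {F : ℝ → ℂ} (hF : Ad F) {V L : ℝ} (hV : 0 ≤ V) (hL : 0 ≤ L) :
    ∫ v in (0:ℝ)..V, ‖F (v - L)‖ ^ 2 ≤ ∫ v in (0:ℝ)..V, ‖F v‖ ^ 2 := by
  rw [intervalIntegral.integral_comp_sub_right (fun v => ‖F v‖ ^ 2) L, zero_sub]
  have h1 : ∫ v in (-L)..(0:ℝ), ‖F v‖ ^ 2 = 0 := by
    rw [intervalIntegral.integral_of_le (by linarith), integral_Ioc_eq_integral_Ioo]
    have : ∀ v ∈ Ioo (-L) (0:ℝ), ‖F v‖ ^ 2 = 0 := by
      intro v hv
      rw [hF.neg v hv.2]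
      simp
    rw [setIntegral_congr_fun measurableSet_Ioo this]
    simp
  have h2 : ∫ v in (-L)..(V - L), ‖F v‖ ^ 2 = ∫ v in (0:ℝ)..(V - L), ‖F v‖ ^ 2 := by
    rw [← intervalIntegral.integral_add_adjacent_intervals (hF.int_sq (-L) 0) (hF.int_sq 0 (V - L)), h1,
      zero_add]
  have h3 : ∫ v in (0:ℝ)..V, ‖F v‖ ^ 2 = (∫ v in (0:ℝ)..(V - L), ‖F v‖ ^ 2) +
      ∫ v in (V - L)..V, ‖F v‖ ^ 2 :=
    (intervalIntegral.integral_add_adjacent_intervals (hF.int_sq 0 (V - L)) (hF.int_sq (V - L) V)).symm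
  have h4 : 0 ≤ ∫ v in (V - L)..V, ‖F v‖ ^ 2 :=
    intervalIntegral.integral_nonneg (by linarith) fun v _ => by positivity
  rw [h2, h3]
  linarith

/-- Young's inequality -/
theorem young {F : ℝ → ℂ} (hF : Ad F) {c : ℕ → ℂ} (hc : ∀ m : ℕ, 1 ≤ m → ‖c m‖ ≤ am m) {V : ℝ} (hV : 0 ≤ V) :
    ∫ v in (0:ℝ)..V, ‖cv c F v‖ ^ 2 ≤ KK ^ 2 * ∫ v in (0:ℝ)..V, ‖F v‖ ^ 2 := by
  set N := ⌊Real.exp V⌋₊ with hN
  have hpt : ∀ v ∈ Icc (0:ℝ) V, ‖cv c F v‖ ^ 2 ≤
      KK * ∑ m ∈ Finset.Icc 1 N, am m * ‖F (v - Real.log m)‖ ^ 2 := by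
    intro v hv
    rw [cv_eq hF c (floor_mono hv.2)]
    have h1 : ‖∑ m ∈ Finset.Icc 1 N, c m * F (v - Real.log m)‖ ≤
        ∑ m ∈ Finset.Icc 1 N, am m * ‖F (v - Real.log m)‖ := by
      refine norm_sum_le_of_le _ fun m hm => ?_
      rw [Finset.mem_Icc] at hm
      rw [norm_mul]
      exact mul_le_mul_of_nonneg_right (hc m hm.1) (norm_nonneg _)
    have h2 : (∑ m ∈ Finset.Icc 1 N, am m * ‖F (v - Real.log m)‖) ^ 2 ≤
        (∑ m ∈ Finset.Icc 1 N, am m) * ∑ m ∈ Finset.Icc 1 N, am m * ‖F (v - Real.log m)‖ ^ 2 := by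
      apply Finset.sum_sq_le_sum_mul_sum_of_sq_eq_mul
      · intro m _; exact am_nonneg m
      · intro m _; have := am_nonneg m; positivity
      · intro m _; ring
    calc ‖∑ m ∈ Finset.Icc 1 N, c m * F (v - Real.log m)‖ ^ 2 ≤
        (∑ m ∈ Finset.Icc 1 N, am m * ‖F (v - Real.log m)‖) ^ 2 := by gcongr
      _ ≤ (∑ m ∈ Finset.Icc 1 N, am m) * ∑ m ∈ Finset.Icc 1 N, am m * ‖F (v - Real.log m)‖ ^ 2 := h2
      _ ≤ _ := by
        apply mul_le_mul_of_nonneg_right (sum_am_le _)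
        exact Finset.sum_nonneg fun m _ => mul_nonneg (am_nonneg m) (by positivity)
  have hi : ∀ m ∈ Finset.Icc 1 N, IntervalIntegrable (fun v : ℝ => am m * ‖F (v - Real.log m)‖ ^ 2)
      volume 0 V := by
    intro m _
    apply IntervalIntegrable.const_mul
    have := (hF.int_sq (0 - Real.log m) (V - Real.log m)).comp_sub_right (Real.log m)
    simpa using this
  have hisum : IntervalIntegrable (fun v : ℝ => KK * ∑ m ∈ Finset.Icc 1 N, am m * ‖F (v - Real.log m)‖ ^ 2)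
      volume 0 V := by
    apply IntervalIntegrable.const_mul
    have h := IntervalIntegrable.sum (Finset.Icc 1 N) hi
    have e : (∑ m ∈ Finset.Icc 1 N, fun v : ℝ => am m * ‖F (v - Real.log m)‖ ^ 2) =
        fun v => ∑ m ∈ Finset.Icc 1 N, am m * ‖F (v - Real.log m)‖ ^ 2 := by
      ext v; simp
    rw [← e]
    exact h
  refine (intervalIntegral.integral_mono_on hV ((cv_ad hF hc).int_sq 0 V) hisum hpt).trans ?_
  rw [intervalIntegral.integral_const_mul, intervalIntegral.integral_finsetSum hi]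
  have hI0 : 0 ≤ ∫ v in (0:ℝ)..V, ‖F v‖ ^ 2 :=
    intervalIntegral.integral_nonneg hV fun v _ => by positivity
  have h5 : ∑ m ∈ Finset.Icc 1 N, ∫ v in (0:ℝ)..V, am m * ‖F (v - Real.log m)‖ ^ 2 ≤
      ∑ m ∈ Finset.Icc 1 N, am m * ∫ v in (0:ℝ)..V, ‖F v‖ ^ 2 := by
    refine Finset.sum_le_sum fun m hm => ?_
    rw [Finset.mem_Icc] at hm
    rw [intervalIntegral.integral_const_mul]
    apply mul_le_mul_of_nonneg_left _ (am_nonneg m)
    exact shift_le hF hV (Real.log_nonneg (by exact_mod_cast hm.1))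
  rw [← Finset.sum_mul] at h5
  have h6 : (∑ m ∈ Finset.Icc 1 N, am m) * ∫ v in (0:ℝ)..V, ‖F v‖ ^ 2 ≤
      KK * ∫ v in (0:ℝ)..V, ‖F v‖ ^ 2 := mul_le_mul_of_nonneg_right (sum_am_le _) hI0
  calc KK * ∑ m ∈ Finset.Icc 1 N, ∫ v in (0:ℝ)..V, am m * ‖F (v - Real.log m)‖ ^ 2 ≤
      KK * (KK * ∫ v in (0:ℝ)..V, ‖F v‖ ^ 2) :=
        mul_le_mul_of_nonneg_left (h5.trans h6) KK_nonneg
    _ = _ := by ring

/-! ## the two functions -/

/-- `f(v) = M(e^v) e^{-v/2}` -/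
noncomputable def fC (v : ℝ) : ℂ := ((Mx (Real.exp v) * Real.exp (-(v / 2)) : ℝ) : ℂ)

/-- `h(v) = H(e^v) e^{-v/2}` -/
noncomputable def hC (v : ℝ) : ℂ := ((HH (Real.exp v) * Real.exp (-(v / 2)) : ℝ) : ℂ)

lemma exp_div {v : ℝ} {m : ℕ} (hm : 1 ≤ m) : Real.exp (v - Real.log m) = Real.exp v / m := by
  rw [Real.exp_sub, Real.exp_log (by exact_mod_cast hm)]

lemma exp_half {v : ℝ} {m : ℕ} (hm : 1 ≤ m) :
    am m * Real.exp (-((v - Real.log m) / 2)) = Real.exp (-(v / 2)) / m := by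
  have hm0 : (0 : ℝ) < m := by exact_mod_cast hm
  have h1 : Real.exp (-((v - Real.log m) / 2)) = Real.exp (-(v / 2)) * (m : ℝ) ^ (1 / 2 : ℝ) := by
    rw [Real.rpow_def_of_pos hm0, ← Real.exp_add]
    congr 1
    ring
  unfold am
  rw [h1]
  have h2 : (m : ℝ) ^ (-(3 / 2 : ℝ)) * (m : ℝ) ^ (1 / 2 : ℝ) = (m : ℝ)⁻¹ := by
    rw [← Real.rpow_add hm0]
    norm_num
    rw [Real.rpow_neg_one]
  calc (m : ℝ) ^ (-(3 / 2 : ℝ)) * (Real.exp (-(v / 2)) * (m : ℝ) ^ (1 / 2 : ℝ)) =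
      Real.exp (-(v / 2)) * ((m : ℝ) ^ (-(3 / 2 : ℝ)) * (m : ℝ) ^ (1 / 2 : ℝ)) := by ring
    _ = _ := by rw [h2]; ring

lemma fC_ad : Ad fC := by
  refine ⟨?_, ?_, ?_⟩
  · have h1 : Measurable fun v : ℝ => Mx (Real.exp v) := by
      have : Measurable Mx := by
        have e : Mx = (fun n : ℕ => ∑ k ∈ Finset.Icc 1 n, mu k) ∘ fun y : ℝ => ⌊y⌋₊ := rfl
        rw [e]
        exact (measurable_of_countable _).comp Nat.measurable_floor
      exact this.comp Real.measurable_exp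
    exact Complex.measurable_ofReal.comp (h1.mul (by fun_prop))
  · intro v hv
    unfold fC Mx
    have : ⌊Real.exp v⌋₊ = 0 := by
      rw [Nat.floor_eq_zero]
      have := Real.exp_lt_exp.2 hv
      rwa [Real.exp_zero] at this
    rw [this]
    simp
  · intro V
    refine ⟨Real.exp (V / 2), (Real.exp_pos _).le, fun v hv => ?_⟩
    unfold fC
    rw [Complex.norm_real, Real.norm_eq_abs, abs_mul, abs_of_pos (Real.exp_pos _)]
    calc |Mx (Real.exp v)| * Real.exp (-(v / 2)) ≤ Real.exp v * Real.exp (-(v / 2)) := by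
          gcongr
          exact abs_Mx_le (Real.exp_pos v).le
      _ = Real.exp (v / 2) := by rw [← Real.exp_add]; congr 1; ring
      _ ≤ _ := Real.exp_le_exp.2 (by linarith)

lemma norm_am (m : ℕ) : ‖((am m : ℝ) : ℂ)‖ ≤ am m := by
  rw [Complex.norm_real, Real.norm_of_nonneg (am_nonneg m)]

lemma hC_eq : hC = cv (fun m => ((am m : ℝ) : ℂ)) fC := by
  funext v
  unfold hC cv fC HH
  rw [Finset.sum_mul]
  push_cast
  refine Finset.sum_congr rfl fun m hm => ?_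
  rw [Finset.mem_Icc] at hm
  rw [exp_div hm.1]
  have h1 := exp_half (v := v) hm.1
  have h2 : ((am m : ℝ) : ℂ) * ((Real.exp (-((v - Real.log m) / 2)) : ℝ) : ℂ) =
      ((Real.exp (-(v / 2)) / m : ℝ) : ℂ) := by rw [← h1]; push_cast; ring
  push_cast at h2 ⊢
  calc _ = ((Mx (Real.exp v / m) : ℝ) : ℂ) * (Complex.exp (-((v : ℂ) / 2)) / m) := by push_cast; ring
    _ = _ := by rw [← h2]; push_cast; ring

lemma hC_ad : Ad hC := by
  rw [hC_eq]
  exact cv_ad fC_ad fun m _ => norm_am m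

lemma fC_eq : fC = cv (fun m => ((mu m * am m : ℝ) : ℂ)) hC := by
  funext v
  unfold fC cv hC
  -- the inversion
  have h1 : Mx (Real.exp v) = ∑ m ∈ Finset.Icc 1 ⌊Real.exp v⌋₊, mu m / m * HH (Real.exp v / m) := by
    set n := ⌊Real.exp v⌋₊ with hn
    have h2 : ∀ m ∈ Finset.Icc 1 n, mu m / m * HH (Real.exp v / m) =
        ∑ k ∈ Finset.Icc 1 (n / m), mu m * (Mx (Real.exp v / ((m * k : ℕ) : ℝ)) / ((m * k : ℕ) : ℝ)) := by
      intro m hm
      rw [Finset.mem_Icc] at hm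
      have hm0 : (m : ℝ) ≠ 0 := by exact_mod_cast (show m ≠ 0 by omega)
      unfold HH
      rw [Nat.floor_div_natCast, ← hn, Finset.mul_sum]
      refine Finset.sum_congr rfl fun k hk => ?_
      rw [Finset.mem_Icc] at hk
      have hk0 : (k : ℝ) ≠ 0 := by exact_mod_cast (show k ≠ 0 by omega)
      push_cast
      rw [div_div]
      field_simp
    rw [Finset.sum_congr rfl h2, ← sum_divisors_swap n (fun e d : ℕ =>
      mu e * (Mx (Real.exp v / ((e * d : ℕ) : ℝ)) / ((e * d : ℕ) : ℝ)))]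
    have h3 : ∀ k ∈ Finset.Icc 1 n, ∑ e ∈ k.divisors,
        mu e * (Mx (Real.exp v / ((e * (k / e) : ℕ) : ℝ)) / ((e * (k / e) : ℕ) : ℝ)) =
        if k = 1 then Mx (Real.exp v) else 0 := by
      intro k hk
      rw [Finset.mem_Icc] at hk
      have h4 : ∀ e ∈ k.divisors,
          mu e * (Mx (Real.exp v / ((e * (k / e) : ℕ) : ℝ)) / ((e * (k / e) : ℕ) : ℝ)) =
          mu e * (Mx (Real.exp v / k) / k) := by
        intro e he
        rw [Nat.mul_div_cancel' (Nat.dvd_of_mem_divisors he)]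
      rw [Finset.sum_congr rfl h4, ← Finset.sum_mul]
      have h5 : ∑ e ∈ k.divisors, mu e = if k = 1 then 1 else 0 := by
        have := congrArg (fun f : ArithmeticFunction ℤ => f k) ArithmeticFunction.moebius_mul_coe_zeta
        simp only [ArithmeticFunction.coe_mul_zeta_apply, ArithmeticFunction.one_apply] at this
        unfold mu
        exact_mod_cast this
      rw [h5]
      by_cases hk1 : k = 1
      · subst hk1
        simp
      · simp [hk1]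
    rw [Finset.sum_congr rfl h3, Finset.sum_ite_eq']
    by_cases hn1 : 1 ≤ n
    · rw [if_pos (Finset.mem_Icc.2 ⟨le_rfl, hn1⟩)]
    · rw [if_neg (by rw [Finset.mem_Icc]; omega)]
      unfold Mx
      rw [← hn, show n = 0 by omega]
      simp
  rw [h1, Finset.sum_mul]
  push_cast
  refine Finset.sum_congr rfl fun m hm => ?_
  rw [Finset.mem_Icc] at hm
  rw [exp_div hm.1]
  have h1 := exp_half (v := v) hm.1
  have h2 : ((am m : ℝ) : ℂ) * ((Real.exp (-((v - Real.log m) / 2)) : ℝ) : ℂ) =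
      ((Real.exp (-(v / 2)) / m : ℝ) : ℂ) := by rw [← h1]; push_cast; ring
  push_cast at h2 ⊢
  calc _ = ((mu m : ℝ) : ℂ) * ((HH (Real.exp v / m) : ℝ) : ℂ) * (Complex.exp (-((v : ℂ) / 2)) / m) := by
        push_cast; ring
    _ = _ := by rw [← h2]; push_cast; ring

lemma f_le_h {V : ℝ} (hV : 0 ≤ V) :
    ∫ v in (0:ℝ)..V, ‖fC v‖ ^ 2 ≤ KK ^ 2 * ∫ v in (0:ℝ)..V, ‖hC v‖ ^ 2 := by
  conv_lhs => rw [fC_eq]
  refine young hC_ad (fun m _ => ?_) hV
  rw [Complex.norm_real, Real.norm_eq_abs, abs_mul, abs_of_nonneg (am_nonneg m)]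
  have := abs_mu_le m
  have := am_nonneg m
  nlinarith

end Pool.Agent.R305.FM
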