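import Pool.Agent.R305.FM.F2

set_option autoImplicit false

/-! # The mean square of `H(e^v) e^{-v/2}` -/

namespace Pool.Agent.R305.FM

open MeasureTheory Filter Topology Set
open H353.FB
open Pool.Agent.H295R2 (ww ee GR)
open Pool.Agent.W120.WM (ZC NT)
open Pool.Agent.TH223.AP (GR_lim dist_lim' SS ww_sq ft)

lemma norm_ee {ρ : ℂ} (h : ρ.re = 1 / 2) (v : ℝ) : ‖ee ρ v‖ = 1 := by
  unfold Pool.Agent.H295R2.ee
  rw [Complex.norm_exp]
  have : ((ρ - 1 / 2) * (v : ℂ)).re = 0 := by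
    simp [h]
  rw [this, Real.exp_zero]

lemma ee_mul_conj {ρ ρ' : ℂ} (h' : ρ'.re = 1 / 2) (v : ℝ) :
    ee ρ v * (starRingEnd ℂ) (ee ρ' v) = Complex.exp ((ρ - ρ') * v) := by
  unfold Pool.Agent.H295R2.ee
  rw [← Complex.exp_conj, ← Complex.exp_add]
  congr 1
  have h1 : (starRingEnd ℂ) ρ' = 1 - ρ' := by
    apply Complex.ext
    · simp [h']; norm_num
    · simp
  simp only [map_mul, map_sub, Complex.conj_ofReal, h1, map_div₀, map_one, map_ofNat]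
  ring

lemma ee_cont (ρ : ℂ) : Continuous (ee ρ) := by
  unfold Pool.Agent.H295R2.ee
  fun_prop

lemma mn_trig (Z : Finset ℂ) (hZ : ∀ ρ ∈ Z, ρ.re = 1 / 2) (b : ℂ → ℂ) :
    Tendsto (fun V : ℝ => (∫ v in (0:ℝ)..V, ‖∑ ρ ∈ Z, b ρ * ee ρ v‖ ^ 2) / V) atTop
      (𝓝 (∑ ρ ∈ Z, ‖b ρ‖ ^ 2)) := by
  classical
  have h1 : Tendsto (fun V : ℝ => ∑ ρ ∈ Z, ∑ ρ' ∈ Z, b ρ * (starRingEnd ℂ) (b ρ') * (GR (ρ - ρ') V / V))
      atTop (𝓝 (∑ ρ ∈ Z, ∑ ρ' ∈ Z, b ρ * (starRingEnd ℂ) (b ρ') * (if ρ - ρ' = 0 then 1 else 0))) := by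
    refine tendsto_finsetSum _ fun ρ hρ => tendsto_finsetSum _ fun ρ' hρ' => ?_
    refine (GR_lim ?_).const_mul _
    rw [Complex.sub_re, hZ ρ hρ, hZ ρ' hρ', sub_self]
  have h2 : ∑ ρ ∈ Z, ∑ ρ' ∈ Z, b ρ * (starRingEnd ℂ) (b ρ') * (if ρ - ρ' = 0 then (1:ℂ) else 0) =
      ((∑ ρ ∈ Z, ‖b ρ‖ ^ 2 : ℝ) : ℂ) := by
    push_cast
    refine Finset.sum_congr rfl fun ρ hρ => ?_
    have h3 : ∀ ρ' ∈ Z, b ρ * (starRingEnd ℂ) (b ρ') * (if ρ - ρ' = 0 then (1:ℂ) else 0) =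
        if ρ = ρ' then b ρ * (starRingEnd ℂ) (b ρ') else 0 := by
      intro ρ' _
      by_cases h : ρ = ρ'
      · simp [h]
      · rw [if_neg (sub_ne_zero.2 h), if_neg h, mul_zero]
    rw [Finset.sum_congr rfl h3, Finset.sum_ite_eq, if_pos hρ, Complex.mul_conj,
      Complex.normSq_eq_norm_sq]
    push_cast
    rfl
  rw [h2] at h1
  have h4 := (Complex.continuous_re.tendsto _).comp h1
  rw [Complex.ofReal_re] at h4
  refine h4.congr' ?_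
  filter_upwards [eventually_gt_atTop (0:ℝ)] with V hV
  simp only [Function.comp]
  have h5 : ∀ v : ℝ, ((‖∑ ρ ∈ Z, b ρ * ee ρ v‖ ^ 2 : ℝ) : ℂ) =
      ∑ ρ ∈ Z, ∑ ρ' ∈ Z, b ρ * (starRingEnd ℂ) (b ρ') * Complex.exp ((ρ - ρ') * v) := by
    intro v
    rw [← Complex.normSq_eq_norm_sq, ← Complex.mul_conj, map_sum, Finset.sum_mul_sum]
    refine Finset.sum_congr rfl fun ρ hρ => Finset.sum_congr rfl fun ρ' hρ' => ?_
    rw [map_mul, ← ee_mul_conj (hZ ρ' hρ')]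
    ring
  have h6 : (((∫ v in (0:ℝ)..V, ‖∑ ρ ∈ Z, b ρ * ee ρ v‖ ^ 2) : ℝ) : ℂ) =
      ∑ ρ ∈ Z, ∑ ρ' ∈ Z, b ρ * (starRingEnd ℂ) (b ρ') * GR (ρ - ρ') V := by
    rw [← intervalIntegral.integral_ofReal]
    simp_rw [h5]
    have hint : ∀ ρ ρ' : ℂ, IntervalIntegrable (fun v : ℝ => b ρ * (starRingEnd ℂ) (b ρ') *
        Complex.exp ((ρ - ρ') * v)) volume 0 V := fun ρ ρ' =>
      Continuous.intervalIntegrable (by fun_prop) _ _
    rw [intervalIntegral.integral_finsetSum]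
    · refine Finset.sum_congr rfl fun ρ _ => ?_
      rw [intervalIntegral.integral_finsetSum (fun ρ' _ => hint ρ ρ')]
      refine Finset.sum_congr rfl fun ρ' _ => ?_
      rw [intervalIntegral.integral_const_mul, intervalIntegral.integral_of_le hV.le]
      rfl
    · intro ρ _
      exact Continuous.intervalIntegrable (by fun_prop) _ _
  have h7 : ∑ ρ ∈ Z, ∑ ρ' ∈ Z, b ρ * (starRingEnd ℂ) (b ρ') * (GR (ρ - ρ') V / V) =
      (((∫ v in (0:ℝ)..V, ‖∑ ρ ∈ Z, b ρ * ee ρ v‖ ^ 2) / V : ℝ) : ℂ) := by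
    push_cast
    rw [h6, Finset.sum_div]
    refine Finset.sum_congr rfl fun ρ _ => ?_
    rw [Finset.sum_div]
    refine Finset.sum_congr rfl fun ρ' _ => by ring
  rw [h7, Complex.ofReal_re]

/-! ## the partial sums of zeta -/

/-- `∑_{m ≤ e^v} m^{-1-ρ}` -/
noncomputable def pp (ρ : ℂ) (v : ℝ) : ℂ :=
  ∑ m ∈ Finset.Icc 1 ⌊Real.exp v⌋₊, ((am m : ℝ) : ℂ) * Complex.exp (-((ρ - 1 / 2) * Real.log m))

lemma pp_term {ρ : ℂ} {m : ℕ} (hm : 1 ≤ m) :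
    ((am m : ℝ) : ℂ) * Complex.exp (-((ρ - 1 / 2) * Real.log m)) = 1 / (m : ℂ) ^ (1 + ρ) := by
  have hm0 : (0 : ℝ) < m := by exact_mod_cast hm
  have hmC : (m : ℂ) ≠ 0 := by exact_mod_cast hm0.ne'
  unfold am
  have hinv : ∀ y : ℂ, 1 / Complex.exp y = Complex.exp (-y) := fun y => by rw [Complex.exp_neg, one_div]
  rw [Complex.ofReal_cpow hm0.le, Complex.ofReal_natCast, Complex.cpow_def_of_ne_zero hmC,
    Complex.cpow_def_of_ne_zero hmC, ← Complex.exp_add, hinv,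
    ← Complex.ofReal_natCast, ← Complex.ofReal_log hm0.le]
  congr 1
  push_cast
  ring

lemma pp_lim {ρ : ℂ} (h : ρ.re = 1 / 2) : Tendsto (pp ρ) atTop (𝓝 (riemannZeta (1 + ρ))) := by
  have hre : 1 < (1 + ρ).re := by
    rw [Complex.add_re, Complex.one_re, h]
    norm_num
  have hs := (Complex.summable_one_div_nat_cpow.2 hre).hasSum
  rw [← zeta_eq_tsum_one_div_nat_cpow hre] at hs
  have h1 := hs.tendsto_sum_nat
  have h2 : Tendsto (fun v : ℝ => ⌊Real.exp v⌋₊ + 1) atTop atTop :=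
    (tendsto_add_atTop_nat 1).comp (tendsto_nat_floor_atTop.comp Real.tendsto_exp_atTop)
  refine (h1.comp h2).congr fun v => ?_
  simp only [Function.comp]
  unfold pp
  have h3 : (1 : ℂ) / (((0 : ℕ) : ℂ)) ^ (1 + ρ) = 0 := by
    rw [Nat.cast_zero, Complex.zero_cpow]
    · simp
    · intro h0
      rw [h0] at hre
      simp at hre
      linarith
  symm
  have h5 : ∀ m ∈ Finset.Icc 1 ⌊Real.exp v⌋₊,
      ((am m : ℝ) : ℂ) * Complex.exp (-((ρ - 1 / 2) * Real.log m)) = 1 / (m : ℂ) ^ (1 + ρ) :=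
    fun m hm => pp_term (Finset.mem_Icc.1 hm).1
  rw [Finset.sum_congr rfl h5]
  apply Finset.sum_subset
  · intro m hm
    rw [Finset.mem_Icc] at hm
    rw [Finset.mem_range]
    omega
  · intro m hm hm2
    rw [Finset.mem_range] at hm
    rw [Finset.mem_Icc] at hm2
    have h6 : m = 0 := by omega
    rw [h6]
    exact h3

lemma norm_pp_le {ρ : ℂ} (h : ρ.re = 1 / 2) (v : ℝ) : ‖pp ρ v‖ ≤ KK := by
  unfold pp
  refine le_trans ?_ (sum_am_le (Finset.Icc 1 ⌊Real.exp v⌋₊))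
  refine norm_sum_le_of_le _ fun m _ => ?_
  rw [norm_mul, Complex.norm_exp]
  have : (-((ρ - 1 / 2) * (Real.log m : ℂ))).re = 0 := by
    rw [Complex.neg_re, Complex.re_mul_ofReal]
    simp [h]
  rw [this, Real.exp_zero, mul_one]
  exact norm_am m

lemma norm_zeta_le {ρ : ℂ} (h : ρ.re = 1 / 2) : ‖riemannZeta (1 + ρ)‖ ≤ KK :=
  le_of_tendsto ((pp_lim h).norm) (Eventually.of_forall fun v => norm_pp_le h v)

/-- the trigonometric polynomial, cut off at `0` -/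
noncomputable def PZ (Z : Finset ℂ) (v : ℝ) : ℂ := if v < 0 then 0 else ∑ ρ ∈ Z, ww ρ * ee ρ v

lemma PZ_ad {Z : Finset ℂ} (hZ : ∀ ρ ∈ Z, ρ.re = 1 / 2) : Ad (PZ Z) := by
  refine ⟨?_, ?_, ?_⟩
  · refine Measurable.ite measurableSet_Iio measurable_const ?_
    refine Finset.measurable_sum _ fun ρ _ => ?_
    exact (ee_cont ρ).measurable.const_mul _
  · intro v hv
    unfold PZ
    rw [if_pos hv]
  · intro V
    refine ⟨∑ ρ ∈ Z, ‖ww ρ‖, by positivity, fun v _ => ?_⟩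
    unfold PZ
    split_ifs with h
    · rw [norm_zero]
      positivity
    · refine norm_sum_le_of_le _ fun ρ hρ => ?_
      rw [norm_mul, norm_ee (hZ ρ hρ), mul_one]

lemma Ad.sub {F G : ℝ → ℂ} (hF : Ad F) (hG : Ad G) : Ad (fun v => F v - G v) := by
  refine ⟨hF.meas.sub hG.meas, fun v hv => by rw [hF.neg v hv, hG.neg v hv, sub_zero], fun V => ?_⟩
  obtain ⟨B, hB0, hB⟩ := hF.bdd V
  obtain ⟨C, hC0, hC⟩ := hG.bdd V
  exact ⟨B + C, by positivity, fun v hv => (norm_sub_le _ _).trans (add_le_add (hB v hv) (hC v hv))⟩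

lemma cv_sub (c : ℕ → ℂ) (F G : ℝ → ℂ) (v : ℝ) : cv c (fun v => F v - G v) v = cv c F v - cv c G v := by
  unfold cv
  rw [← Finset.sum_sub_distrib]
  exact Finset.sum_congr rfl fun m _ => by ring

lemma cv_PZ {Z : Finset ℂ} (v : ℝ) :
    cv (fun m => ((am m : ℝ) : ℂ)) (PZ Z) v = ∑ ρ ∈ Z, ww ρ * ee ρ v * pp ρ v := by
  unfold cv pp
  have h1 : ∀ m ∈ Finset.Icc 1 ⌊Real.exp v⌋₊, ((am m : ℝ) : ℂ) * PZ Z (v - Real.log m) =
      ∑ ρ ∈ Z, ww ρ * ee ρ v * (((am m : ℝ) : ℂ) * Complex.exp (-((ρ - 1 / 2) * Real.log m))) := by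
    intro m hm
    rw [Finset.mem_Icc] at hm
    have h2 : Real.log m ≤ v := by
      rw [Real.log_le_iff_le_exp (by exact_mod_cast hm.1)]
      exact (Nat.cast_le.2 hm.2).trans (Nat.floor_le (Real.exp_pos v).le)
    unfold PZ
    rw [if_neg (by linarith), Finset.mul_sum]
    refine Finset.sum_congr rfl fun ρ _ => ?_
    have h3 : ee ρ (v - Real.log m) = ee ρ v * Complex.exp (-((ρ - 1 / 2) * Real.log m)) := by
      unfold Pool.Agent.H295R2.ee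
      rw [← Complex.exp_add]
      congr 1
      push_cast
      ring
    rw [h3]
    ring
  rw [Finset.sum_congr rfl h1, Finset.sum_comm]
  refine Finset.sum_congr rfl fun ρ _ => ?_
  rw [Finset.mul_sum]

/-- Cesàro means -/
lemma cesaro {g : ℝ → ℝ} (h0 : ∀ v, 0 ≤ g v) (hi : ∀ a b : ℝ, IntervalIntegrable g volume a b)
    (h : Tendsto g atTop (𝓝 0)) : Tendsto (fun V : ℝ => (∫ v in (0:ℝ)..V, g v) / V) atTop (𝓝 0) := by
  rw [Metric.tendsto_nhds]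
  intro ε hε
  obtain ⟨A, hA⟩ := eventually_atTop.1 (Metric.tendsto_nhds.1 h (ε / 2) (by linarith))
  obtain ⟨B, hB⟩ : ∃ B : ℝ, B = max A 0 := ⟨_, rfl⟩
  have hB0 : 0 ≤ B := by rw [hB]; exact le_max_right _ _
  have hBA : A ≤ B := by rw [hB]; exact le_max_left _ _
  obtain ⟨J, hJ⟩ : ∃ J : ℝ, J = ∫ v in (0:ℝ)..B, g v := ⟨_, rfl⟩
  have hJ0 : 0 ≤ J := by rw [hJ]; exact intervalIntegral.integral_nonneg hB0 fun v _ => h0 v
  filter_upwards [eventually_gt_atTop (max B (4 * J / ε + 1))] with V hV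
  have hVB : B < V := (le_max_left _ _).trans_lt hV
  have hVJ : 4 * J / ε + 1 < V := (le_max_right _ _).trans_lt hV
  have hV0 : 0 < V := by linarith
  have h1 : ∫ v in (0:ℝ)..V, g v = J + ∫ v in B..V, g v := by
    rw [hJ]
    exact (intervalIntegral.integral_add_adjacent_intervals (hi 0 B) (hi B V)).symm
  have h2 : ∫ v in B..V, g v ≤ ε / 2 * (V - B) := by
    have := intervalIntegral.integral_mono_on hVB.le (hi B V) (intervalIntegrable_const (c := ε / 2))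
      (fun v hv => by
        have := hA v (hBA.trans hv.1)
        rw [Real.dist_eq, sub_zero] at this
        exact (le_abs_self _).trans this.le)
    rwa [intervalIntegral.integral_const, smul_eq_mul, mul_comm] at this
  have h3 : 0 ≤ ∫ v in (0:ℝ)..V, g v := intervalIntegral.integral_nonneg hV0.le fun v _ => h0 v
  rw [Real.dist_eq, sub_zero, abs_of_nonneg (by positivity), div_lt_iff₀ hV0, h1]
  have h4 : 4 * J < ε * V := by
    have : 4 * J / ε < V := by linarith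
    rwa [div_lt_iff₀ hε, mul_comm V] at this
  nlinarith

/-- the mean square distance -/
lemma dist_h (hZ : ZC) (Z : Finset ℂ) (h : ∀ ρ ∈ Z, ρ ∈ NT) {δ : ℝ} (hδ : 0 < δ) :
    ∀ᶠ V : ℝ in atTop, (∫ v in (0:ℝ)..V, ‖hC v - ∑ ρ ∈ Z, (ww ρ * riemannZeta (1 + ρ)) * ee ρ v‖ ^ 2) / V ≤
      2 * KK ^ 2 * (SS - ∑ ρ ∈ Z, 1 / ‖ρ * deriv riemannZeta ρ‖ ^ 2) + δ := by
  have hre : ∀ ρ ∈ Z, ρ.re = 1 / 2 := fun ρ hρ => (hZ.1 ρ (h ρ hρ)).1
  set R : ℝ → ℂ := fun v => fC v - PZ Z v with hR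
  have hRad : Ad R := fC_ad.sub (PZ_ad hre)
  set q : ℝ → ℝ := fun v => ∑ ρ ∈ Z, ‖ww ρ‖ * ‖pp ρ v - riemannZeta (1 + ρ)‖ with hq
  have hq0 : ∀ v, 0 ≤ q v := fun v => Finset.sum_nonneg fun ρ _ => by positivity
  have hqlim : Tendsto q atTop (𝓝 0) := by
    have h1 : Tendsto q atTop (𝓝 (∑ ρ ∈ Z, ‖ww ρ‖ * 0)) := by
      refine tendsto_finsetSum _ fun ρ hρ => ?_
      refine Tendsto.const_mul _ ?_
      have := (pp_lim (hre ρ hρ)).sub_const (riemannZeta (1 + ρ))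
      rw [sub_self] at this
      simpa using this.norm
    simpa using h1
  have hppm : ∀ ρ : ℂ, Measurable (pp ρ) := by
    intro ρ
    have e : pp ρ = (fun n : ℕ => ∑ m ∈ Finset.Icc 1 n, ((am m : ℝ) : ℂ) *
        Complex.exp (-((ρ - 1 / 2) * Real.log m))) ∘ fun v : ℝ => ⌊Real.exp v⌋₊ := rfl
    rw [e]
    exact (measurable_of_countable _).comp (Nat.measurable_floor.comp Real.measurable_exp)
  have hqm : Measurable q := Finset.measurable_sum _ fun ρ _ => ((hppm ρ).sub_const _).norm.const_mul _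
  have hqb : ∀ v, q v ≤ ∑ ρ ∈ Z, ‖ww ρ‖ * (2 * KK) := by
    intro v
    refine Finset.sum_le_sum fun ρ hρ => ?_
    gcongr
    refine (norm_sub_le _ _).trans ?_
    have := norm_pp_le (hre ρ hρ) v
    have := norm_zeta_le (hre ρ hρ)
    linarith
  have hqi : ∀ a b : ℝ, IntervalIntegrable (fun v => q v ^ 2) volume a b := by
    intro a b
    rw [intervalIntegrable_iff]
    refine Integrable.mono' (g := fun _ => (∑ ρ ∈ Z, ‖ww ρ‖ * (2 * KK)) ^ 2)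
      (integrableOn_const (by simp [Set.uIoc])) (hqm.pow_const 2).aestronglyMeasurable ?_
    refine Eventually.of_forall fun v => ?_
    rw [Real.norm_of_nonneg (by positivity)]
    have := hq0 v
    have := hqb v
    gcongr
  have hq2 : Tendsto (fun V : ℝ => (∫ v in (0:ℝ)..V, q v ^ 2) / V) atTop (𝓝 0) := by
    refine cesaro (fun v => by positivity) hqi ?_
    have := hqlim.pow 2
    simpa using this
  have hdl := dist_lim' hZ Z h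
  obtain ⟨τ, hτ⟩ : ∃ τ : ℝ, τ = SS - ∑ ρ ∈ Z, 1 / ‖ρ * deriv riemannZeta ρ‖ ^ 2 := ⟨_, rfl⟩
  rw [← hτ] at hdl ⊢
  have hK0 : 0 ≤ 2 * KK ^ 2 := by positivity
  obtain ⟨δ', hδ'⟩ : ∃ δ' : ℝ, δ' = δ / (2 * (2 * KK ^ 2 + 2)) := ⟨_, rfl⟩
  have hδ'0 : 0 < δ' := by rw [hδ']; positivity
  have ev1 : ∀ᶠ V : ℝ in atTop, Pool.Agent.TH223.AP.mn (fun v => ‖((ft v : ℝ) : ℂ) -
      ∑ ρ ∈ Z, ww ρ * ee ρ v‖ ^ 2) V ≤ τ + δ' :=
    (hdl.eventually (gt_mem_nhds (show τ < τ + δ' by linarith))).mono fun V h => h.le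
  have ev2 : ∀ᶠ V : ℝ in atTop, (∫ v in (0:ℝ)..V, q v ^ 2) / V ≤ δ' :=
    (hq2.eventually (gt_mem_nhds hδ'0)).mono fun V h => h.le
  filter_upwards [ev1, ev2, eventually_gt_atTop (0:ℝ)] with V h1 h2 hV
  have hpt : ∀ v ∈ Icc (0:ℝ) V, ‖hC v - ∑ ρ ∈ Z, (ww ρ * riemannZeta (1 + ρ)) * ee ρ v‖ ^ 2 ≤
      2 * ‖cv (fun m => ((am m : ℝ) : ℂ)) R v‖ ^ 2 + 2 * q v ^ 2 := by
    intro v _
    have e1 : hC v - ∑ ρ ∈ Z, (ww ρ * riemannZeta (1 + ρ)) * ee ρ v =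
        cv (fun m => ((am m : ℝ) : ℂ)) R v + ∑ ρ ∈ Z, ww ρ * ee ρ v * (pp ρ v - riemannZeta (1 + ρ)) := by
      have e2 : ∑ ρ ∈ Z, ww ρ * ee ρ v * (pp ρ v - riemannZeta (1 + ρ)) =
          (∑ ρ ∈ Z, ww ρ * ee ρ v * pp ρ v) - ∑ ρ ∈ Z, (ww ρ * riemannZeta (1 + ρ)) * ee ρ v := by
        rw [← Finset.sum_sub_distrib]
        exact Finset.sum_congr rfl fun ρ _ => by ring
      rw [hR, cv_sub, cv_PZ, e2, hC_eq]
      ring
    have e3 : ‖∑ ρ ∈ Z, ww ρ * ee ρ v * (pp ρ v - riemannZeta (1 + ρ))‖ ≤ q v := by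
      refine norm_sum_le_of_le _ fun ρ hρ => ?_
      rw [norm_mul, norm_mul, norm_ee (hre ρ hρ), mul_one]
    rw [e1]
    have e4 := norm_add_le (cv (fun m => ((am m : ℝ) : ℂ)) R v)
      (∑ ρ ∈ Z, ww ρ * ee ρ v * (pp ρ v - riemannZeta (1 + ρ)))
    have e5 := norm_nonneg (cv (fun m => ((am m : ℝ) : ℂ)) R v)
    have e6 := norm_nonneg (cv (fun m => ((am m : ℝ) : ℂ)) R v +
      ∑ ρ ∈ Z, ww ρ * ee ρ v * (pp ρ v - riemannZeta (1 + ρ)))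
    have e7 := hq0 v
    calc ‖cv (fun m => ((am m : ℝ) : ℂ)) R v + ∑ ρ ∈ Z, ww ρ * ee ρ v * (pp ρ v - riemannZeta (1 + ρ))‖ ^ 2
        ≤ (‖cv (fun m => ((am m : ℝ) : ℂ)) R v‖ + q v) ^ 2 := by
          apply pow_le_pow_left₀ e6
          linarith
      _ ≤ _ := by nlinarith [sq_nonneg (‖cv (fun m => ((am m : ℝ) : ℂ)) R v‖ - q v)]
  have hcvad : Ad (cv (fun m => ((am m : ℝ) : ℂ)) R) := cv_ad hRad fun m _ => norm_am m
  have hTad : Measurable fun v : ℝ => ∑ ρ ∈ Z, (ww ρ * riemannZeta (1 + ρ)) * ee ρ v :=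
    Finset.measurable_sum _ fun ρ _ => (ee_cont ρ).measurable.const_mul _
  have hint : IntervalIntegrable (fun v => ‖hC v - ∑ ρ ∈ Z, (ww ρ * riemannZeta (1 + ρ)) * ee ρ v‖ ^ 2)
      volume 0 V := by
    obtain ⟨B, hB0, hB⟩ := hC_ad.bdd V
    rw [intervalIntegrable_iff_integrableOn_Ioc_of_le hV.le]
    refine Integrable.mono' (g := fun _ => (B + ∑ ρ ∈ Z, ‖ww ρ * riemannZeta (1 + ρ)‖) ^ 2)
      (integrableOn_const (by simp)) ((hC_ad.meas.sub hTad).norm.pow_const 2).aestronglyMeasurable ?_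
    refine (ae_restrict_mem measurableSet_Ioc).mono fun v hv => ?_
    rw [Real.norm_of_nonneg (by positivity)]
    apply pow_le_pow_left₀ (norm_nonneg _)
    refine (norm_sub_le _ _).trans (add_le_add (hB v hv.2) ?_)
    refine norm_sum_le_of_le _ fun ρ hρ => ?_
    rw [norm_mul (ww ρ * riemannZeta (1 + ρ)), norm_ee (hre ρ hρ), mul_one]
  have i1 : IntervalIntegrable (fun v => 2 * ‖cv (fun m => ((am m : ℝ) : ℂ)) R v‖ ^ 2) volume 0 V :=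
    (hcvad.int_sq 0 V).const_mul 2
  have i2 : IntervalIntegrable (fun v => 2 * q v ^ 2) volume 0 V := (hqi 0 V).const_mul 2
  have hI := intervalIntegral.integral_mono_on hV.le hint (i1.add i2) hpt
  rw [intervalIntegral.integral_add i1 i2, intervalIntegral.integral_const_mul,
    intervalIntegral.integral_const_mul] at hI
  have hy := young hRad (c := fun m => ((am m : ℝ) : ℂ)) (fun m _ => norm_am m) hV.le
  have hRint : ∫ v in (0:ℝ)..V, ‖R v‖ ^ 2 = ∫ v in (0:ℝ)..V, ‖((ft v : ℝ) : ℂ) - ∑ ρ ∈ Z, ww ρ * ee ρ v‖ ^ 2 := by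
    apply intervalIntegral.integral_congr
    intro v hv
    rw [uIcc_of_le hV.le] at hv
    simp only [hR]
    unfold PZ
    rw [if_neg (not_lt.2 hv.1)]
    rfl
  have h3 : ∫ v in (0:ℝ)..V, ‖R v‖ ^ 2 ≤ (τ + δ') * V := by
    rw [hRint]
    unfold Pool.Agent.TH223.AP.mn at h1
    rwa [div_le_iff₀ hV] at h1
  rw [div_le_iff₀ hV] at h2 ⊢
  have h4 : KK ^ 2 * ∫ v in (0:ℝ)..V, ‖R v‖ ^ 2 ≤ KK ^ 2 * ((τ + δ') * V) := by gcongr
  have h5 : 2 * KK ^ 2 * δ' + 2 * δ' ≤ δ := by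
    have : (2 * KK ^ 2 + 2) * δ' = δ / 2 := by
      rw [hδ']
      field_simp
    linarith
  nlinarith

/-- the sum over the zeros -/
noncomputable def SH : ℝ := ∑' ρ : NT, ‖riemannZeta (1 + ρ)‖ ^ 2 / ‖(ρ : ℂ) * deriv riemannZeta ρ‖ ^ 2

lemma SH_summable (hZ : ZC) :
    Summable fun ρ : NT => ‖riemannZeta (1 + ρ)‖ ^ 2 / ‖(ρ : ℂ) * deriv riemannZeta ρ‖ ^ 2 := by
  refine Summable.of_nonneg_of_le (fun ρ => by positivity) (fun ρ => ?_) (hZ.2.mul_left (KK ^ 2))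
  have := norm_zeta_le (hZ.1 ρ ρ.2).1
  rw [mul_one_div]
  gcongr

theorem lim_h (hZ : ZC) : Tendsto (fun V : ℝ => (∫ v in (0:ℝ)..V, ‖hC v‖ ^ 2) / V) atTop (𝓝 SH) := by
  classical
  have hSH0 : 0 ≤ SH := tsum_nonneg fun ρ => by positivity
  rw [Metric.tendsto_nhds]
  intro ε hε
  obtain ⟨η, hη⟩ : ∃ η : ℝ, η = ε / (8 * (SH + 1)) := ⟨_, rfl⟩
  have hη0 : 0 < η := by rw [hη]; positivity
  have hη1 : η * (SH + 1) = ε / 8 := by rw [hη]; field_simp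
  obtain ⟨θ, hθ⟩ : ∃ θ : ℝ, θ = ε / (8 * ((1 + 1 / η) * (2 * KK ^ 2) + 1)) := ⟨_, rfl⟩
  have hθ0 : 0 < θ := by rw [hθ]; positivity
  have hθ1 : ((1 + 1 / η) * (2 * KK ^ 2) + 1) * θ = ε / 8 := by rw [hθ]; field_simp
  obtain ⟨u, hu1, hu2⟩ : ∃ u : Finset NT,
      SS - ∑ ρ ∈ u, 1 / ‖(ρ : ℂ) * deriv riemannZeta ρ‖ ^ 2 < θ ∧
      |(∑ ρ ∈ u, ‖riemannZeta (1 + ρ)‖ ^ 2 / ‖(ρ : ℂ) * deriv riemannZeta ρ‖ ^ 2) - SH| < ε / 8 := by
    have a1 := Metric.tendsto_nhds.1 hZ.2.hasSum θ hθ0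
    have a2 := Metric.tendsto_nhds.1 (SH_summable hZ).hasSum (ε / 8) (by linarith)
    obtain ⟨u, h1, h2⟩ := (a1.and a2).exists
    refine ⟨u, ?_, ?_⟩
    · rw [Real.dist_eq] at h1
      have := (abs_lt.1 h1).1
      unfold Pool.Agent.TH223.AP.SS
      linarith
    · rwa [Real.dist_eq] at h2
  set Z : Finset ℂ := u.map (Function.Embedding.subtype _) with hZdef
  have hZm : ∀ ρ ∈ Z, ρ ∈ NT := by
    intro ρ hρ
    rw [hZdef, Finset.mem_map] at hρ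
    obtain ⟨ρ', -, rfl⟩ := hρ
    exact ρ'.2
  have hre : ∀ ρ ∈ Z, ρ.re = 1 / 2 := fun ρ hρ => (hZ.1 ρ (hZm ρ hρ)).1
  have hs1 : ∑ ρ ∈ Z, 1 / ‖ρ * deriv riemannZeta ρ‖ ^ 2 =
      ∑ ρ ∈ u, 1 / ‖(ρ : ℂ) * deriv riemannZeta ρ‖ ^ 2 := by
    rw [hZdef, Finset.sum_map]
    rfl
  have hs2 : ∑ ρ ∈ Z, ‖ww ρ * riemannZeta (1 + ρ)‖ ^ 2 =
      ∑ ρ ∈ u, ‖riemannZeta (1 + ρ)‖ ^ 2 / ‖(ρ : ℂ) * deriv riemannZeta ρ‖ ^ 2 := by
    rw [hZdef, Finset.sum_map]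
    refine Finset.sum_congr rfl fun ρ _ => ?_
    show ‖ww (ρ : ℂ) * riemannZeta (1 + (ρ : ℂ))‖ ^ 2 = _
    rw [norm_mul, mul_pow, ww_sq]
    ring
  obtain ⟨δ, hδ⟩ : ∃ δ : ℝ, δ = min 1 (ε / (8 * (1 + 1 / η))) := ⟨_, rfl⟩
  have hδ0 : 0 < δ := by rw [hδ]; exact lt_min one_pos (by positivity)
  have hδ1 : δ ≤ 1 := by rw [hδ]; exact min_le_left _ _
  have hδ2 : (1 + 1 / η) * δ ≤ ε / 8 := by
    have : δ ≤ ε / (8 * (1 + 1 / η)) := by rw [hδ]; exact min_le_right _ _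
    calc (1 + 1 / η) * δ ≤ (1 + 1 / η) * (ε / (8 * (1 + 1 / η))) := by gcongr
      _ = ε / 8 := by field_simp
  have ev1 := dist_h hZ Z hZm hδ0
  rw [hs1] at ev1
  have hmt := mn_trig Z hre (fun ρ => ww ρ * riemannZeta (1 + ρ))
  rw [hs2] at hmt
  obtain ⟨β, hβ⟩ : ∃ β : ℝ, β = ∑ ρ ∈ u, ‖riemannZeta (1 + ρ)‖ ^ 2 / ‖(ρ : ℂ) * deriv riemannZeta ρ‖ ^ 2 := ⟨_, rfl⟩
  rw [← hβ] at hmt hu2
  have hβle : β ≤ SH := by
    rw [hβ]
    exact (SH_summable hZ).sum_le_tsum u fun ρ _ => by positivity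
  have ev2 := Metric.tendsto_nhds.1 hmt (min (ε / 8) 1) (lt_min (by linarith) one_pos)
  filter_upwards [ev1, ev2, eventually_gt_atTop (0:ℝ)] with V h1 h2 hV
  rw [Real.dist_eq] at h2 ⊢
  obtain ⟨T, hT⟩ : ∃ T : ℝ → ℂ, T = fun v => ∑ ρ ∈ Z, (ww ρ * riemannZeta (1 + ρ)) * ee ρ v := ⟨_, rfl⟩
  have hTe : ∀ v, ∑ ρ ∈ Z, (ww ρ * riemannZeta (1 + ρ)) * ee ρ v = T v := fun v => by rw [hT]
  simp only [hTe] at h1 h2
  have hTc : Continuous T := by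
    rw [hT]
    exact continuous_finsetSum _ fun ρ _ => continuous_const.mul (ee_cont ρ)
  obtain ⟨x, hx⟩ : ∃ x : ℝ, x = (∫ v in (0:ℝ)..V, ‖hC v‖ ^ 2) / V := ⟨_, rfl⟩
  obtain ⟨y, hy⟩ : ∃ y : ℝ, y = (∫ v in (0:ℝ)..V, ‖T v‖ ^ 2) / V := ⟨_, rfl⟩
  obtain ⟨d, hd⟩ : ∃ d : ℝ, d = (∫ v in (0:ℝ)..V, ‖hC v - T v‖ ^ 2) / V := ⟨_, rfl⟩
  rw [← hd] at h1
  rw [← hy] at h2
  rw [← hx]
  have iT : IntervalIntegrable (fun v => ‖T v‖ ^ 2) volume 0 V := by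
    apply Continuous.intervalIntegrable
    fun_prop
  have ih : IntervalIntegrable (fun v => ‖hC v‖ ^ 2) volume 0 V := hC_ad.int_sq 0 V
  have id : IntervalIntegrable (fun v => ‖hC v - T v‖ ^ 2) volume 0 V := by
    have hsum : IntervalIntegrable (fun v => 2 * ‖hC v‖ ^ 2 + 2 * ‖T v‖ ^ 2) volume 0 V :=
      (ih.const_mul 2).add (iT.const_mul 2)
    refine hsum.mono_fun ((hC_ad.meas.sub hTc.measurable).norm.pow_const 2).aestronglyMeasurable ?_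
    refine Eventually.of_forall fun v => ?_
    show ‖‖hC v - T v‖ ^ 2‖ ≤ ‖2 * ‖hC v‖ ^ 2 + 2 * ‖T v‖ ^ 2‖
    rw [Real.norm_of_nonneg (by positivity), Real.norm_of_nonneg (by positivity)]
    have e1 := norm_sub_le (hC v) (T v)
    have e2 := norm_nonneg (hC v - T v)
    have e3 := norm_nonneg (hC v)
    have e4 := norm_nonneg (T v)
    nlinarith [sq_nonneg (‖hC v‖ - ‖T v‖), pow_le_pow_left₀ e2 e1 2]
  have hxy : |x - y| ≤ (1 + 1 / η) * d + η * y := by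
    have e1 : x - y = (∫ v in (0:ℝ)..V, (‖hC v‖ ^ 2 - ‖T v‖ ^ 2)) / V := by
      rw [hx, hy, intervalIntegral.integral_sub ih iT]
      ring
    have e2 : |∫ v in (0:ℝ)..V, (‖hC v‖ ^ 2 - ‖T v‖ ^ 2)| ≤
        ∫ v in (0:ℝ)..V, ((1 + 1 / η) * ‖hC v - T v‖ ^ 2 + η * ‖T v‖ ^ 2) := by
      refine (intervalIntegral.abs_integral_le_integral_abs hV.le).trans ?_
      apply intervalIntegral.integral_mono_on hV.le (ih.sub iT).abs ((id.const_mul _).add (iT.const_mul _))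
      intro v _
      have f1 : |‖hC v‖ - ‖T v‖| ≤ ‖hC v - T v‖ := abs_norm_sub_norm_le _ _
      have f2 := norm_nonneg (hC v - T v)
      have f3 := norm_nonneg (hC v)
      have f4 := norm_nonneg (T v)
      have f5 : |‖hC v‖ ^ 2 - ‖T v‖ ^ 2| = |‖hC v‖ - ‖T v‖| * (‖hC v‖ + ‖T v‖) := by
        rw [show ‖hC v‖ ^ 2 - ‖T v‖ ^ 2 = (‖hC v‖ - ‖T v‖) * (‖hC v‖ + ‖T v‖) by ring, abs_mul,
          abs_of_nonneg (by positivity : 0 ≤ ‖hC v‖ + ‖T v‖)]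
      have f6 : ‖hC v‖ ≤ ‖hC v - T v‖ + ‖T v‖ := by
        have := (le_abs_self _).trans f1
        linarith
      rw [f5]
      have f7 : |‖hC v‖ - ‖T v‖| * (‖hC v‖ + ‖T v‖) ≤ ‖hC v - T v‖ * (‖hC v - T v‖ + 2 * ‖T v‖) :=
        mul_le_mul f1 (by linarith) (by positivity) f2
      refine f7.trans ?_
      have f8 : 2 * ‖hC v - T v‖ * ‖T v‖ ≤ 1 / η * ‖hC v - T v‖ ^ 2 + η * ‖T v‖ ^ 2 := by
        have : 0 ≤ 1 / η * (‖hC v - T v‖ - η * ‖T v‖) ^ 2 := by positivity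
        have f9 : 1 / η * (‖hC v - T v‖ - η * ‖T v‖) ^ 2 =
            1 / η * ‖hC v - T v‖ ^ 2 - 2 * ‖hC v - T v‖ * ‖T v‖ + η * ‖T v‖ ^ 2 := by
          field_simp
          ring
        linarith
      nlinarith
    rw [intervalIntegral.integral_add (id.const_mul _) (iT.const_mul _), intervalIntegral.integral_const_mul,
      intervalIntegral.integral_const_mul] at e2
    rw [e1, abs_div, abs_of_pos hV, div_le_iff₀ hV, hd, hy]
    refine e2.trans (le_of_eq ?_)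
    field_simp
  have hm8 := min_le_left (ε / 8) (1:ℝ)
  have hm1 := min_le_right (ε / 8) (1:ℝ)
  have g1 := abs_lt.1 h2
  have g2 := abs_lt.1 hu2
  have hyle : y ≤ SH + 1 := by linarith [g1.2]
  have g3 : η * y ≤ ε / 8 := by rw [← hη1]; gcongr
  have hq0 : 0 < 1 + 1 / η := by positivity
  have g4 : (1 + 1 / η) * d ≤ ε / 8 + ε / 8 := by
    calc (1 + 1 / η) * d ≤ (1 + 1 / η) * (2 * KK ^ 2 * (SS -
          ∑ ρ ∈ u, 1 / ‖(ρ : ℂ) * deriv riemannZeta ρ‖ ^ 2) + δ) := by gcongr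
      _ ≤ (1 + 1 / η) * (2 * KK ^ 2 * θ + δ) := by gcongr
      _ = (1 + 1 / η) * (2 * KK ^ 2) * θ + (1 + 1 / η) * δ := by ring
      _ ≤ ε / 8 + ε / 8 := by
        have : (1 + 1 / η) * (2 * KK ^ 2) * θ ≤ ε / 8 := by
          have e9 : ((1 + 1 / η) * (2 * KK ^ 2) + 1) * θ = (1 + 1 / η) * (2 * KK ^ 2) * θ + θ := by ring
          rw [e9] at hθ1
          linarith
        linarith
  have g5 := abs_le.1 hxy
  rw [abs_lt]
  constructor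
  · linarith [g5.1, g1.1, g2.1]
  · linarith [g5.2, g1.2, g2.2]

end Pool.Agent.R305.FM
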