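import Pool.Agent.R305.FM.F1
import Mathlib

set_option autoImplicit false

/-! # The weighted sums over `g` -/

namespace Pool.Agent.R305.FM

open MeasureTheory Filter Topology Set
open H353.FB

/-- `∑_{e ≤ e^W} (W - log e)/e` -/
noncomputable def GW (W : ℝ) : ℝ := ∑ e ∈ Finset.Icc 1 ⌊Real.exp W⌋₊, (W - Real.log e) / e

lemma GW_neg {W : ℝ} (h : W < 0) : GW W = 0 := by
  unfold GW
  have : ⌊Real.exp W⌋₊ = 0 := by
    rw [Nat.floor_eq_zero]
    have := Real.exp_lt_exp.2 h
    rwa [Real.exp_zero] at this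
  rw [this]
  simp

lemma log_le_of_mem {W : ℝ} {e : ℕ} (he : e ∈ Finset.Icc 1 ⌊Real.exp W⌋₊) : Real.log e ≤ W := by
  rw [Finset.mem_Icc] at he
  rw [Real.log_le_iff_le_exp (by exact_mod_cast he.1)]
  exact (Nat.cast_le.2 he.2).trans (Nat.floor_le (Real.exp_pos W).le)

lemma GW_nonneg (W : ℝ) : 0 ≤ GW W := by
  unfold GW
  refine Finset.sum_nonneg fun e he => ?_
  have := log_le_of_mem he
  apply div_nonneg (by linarith) (Nat.cast_nonneg _)

lemma harm_le {W : ℝ} (hW : 0 ≤ W) : ∑ e ∈ Finset.Icc 1 ⌊Real.exp W⌋₊, 1 / (e : ℝ) ≤ 1 + W := by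
  have h := harmonic_floor_le_one_add_log (Real.exp W) (Real.one_le_exp hW)
  rw [Real.log_exp] at h
  refine le_trans (le_of_eq ?_) h
  rw [harmonic_eq_sum_Icc]
  push_cast
  simp [one_div]

lemma GW_le (W : ℝ) (hW : 0 ≤ W) : GW W ≤ (1 + W) ^ 2 := by
  unfold GW
  calc ∑ e ∈ Finset.Icc 1 ⌊Real.exp W⌋₊, (W - Real.log e) / e ≤
      ∑ e ∈ Finset.Icc 1 ⌊Real.exp W⌋₊, W * (1 / (e : ℝ)) := by
        refine Finset.sum_le_sum fun e he => ?_
        have h1 : 0 ≤ Real.log e := Real.log_nonneg (by exact_mod_cast (Finset.mem_Icc.1 he).1)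
        have h2 : (0 : ℝ) < e := by exact_mod_cast (Finset.mem_Icc.1 he).1
        rw [mul_one_div]
        gcongr
        linarith
    _ = W * ∑ e ∈ Finset.Icc 1 ⌊Real.exp W⌋₊, 1 / (e : ℝ) := by rw [Finset.mul_sum]
    _ ≤ W * (1 + W) := by
        have := harm_le hW
        gcongr
    _ ≤ _ := by nlinarith

lemma prim (W : ℝ) {a b : ℝ} (ha : 1 ≤ a) (hab : a ≤ b) :
    ∫ t in a..b, (W - Real.log t) / t = (W * Real.log b - Real.log b ^ 2 / 2) -
      (W * Real.log a - Real.log a ^ 2 / 2) := by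
  apply intervalIntegral.integral_eq_sub_of_hasDerivAt (f := fun t => W * Real.log t - Real.log t ^ 2 / 2)
  · intro t ht
    rw [uIcc_of_le hab] at ht
    have ht0 : t ≠ 0 := by linarith [ht.1]
    have h1 := Real.hasDerivAt_log ht0
    have h2 : HasDerivAt (fun t => W * Real.log t - Real.log t ^ 2 / 2)
        (W * t⁻¹ - (2 : ℕ) * Real.log t ^ (2 - 1) * t⁻¹ / 2) t :=
      (h1.const_mul W).sub ((h1.pow 2).div_const 2)
    refine h2.congr_deriv ?_
    field_simp
    norm_num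
    ring
  · apply ContinuousOn.intervalIntegrable
    rw [uIcc_of_le hab]
    intro t ht
    have ht0 : t ≠ 0 := by linarith [ht.1]
    exact ((continuousAt_const.sub (Real.continuousAt_log ht0)).div continuousAt_id ht0).continuousWithinAt

lemma anti (W : ℝ) : AntitoneOn (fun t : ℝ => (W - Real.log t) / t) (Icc 1 (Real.exp (W + 1))) := by
  have hd : ∀ t : ℝ, 1 ≤ t → HasDerivAt (fun t : ℝ => (W - Real.log t) / t)
      ((-(t⁻¹) * t - (W - Real.log t) * 1) / t ^ 2) t := by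
    intro t ht
    have ht0 : t ≠ 0 := by linarith
    exact ((Real.hasDerivAt_log ht0).const_sub W).div (hasDerivAt_id t) ht0
  refine antitoneOn_of_deriv_nonpos (convex_Icc _ _) ?_ ?_ ?_
  · intro t ht
    exact (hd t ht.1).continuousAt.continuousWithinAt
  · intro t ht
    rw [interior_Icc] at ht
    exact (hd t ht.1.le).differentiableAt.differentiableWithinAt
  · intro t ht
    rw [interior_Icc] at ht
    rw [(hd t ht.1.le).deriv]
    have ht0 : 0 < t := by linarith [ht.1]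
    have h1 : Real.log t < W + 1 := by
      rw [Real.log_lt_iff_lt_exp ht0]
      exact ht.2
    apply div_nonpos_of_nonpos_of_nonneg _ (by positivity)
    have : -(t⁻¹) * t = -1 := by field_simp
    rw [this]
    linarith

lemma GW_low (W : ℝ) (hW : 0 ≤ W) : W ^ 2 / 2 - 1 / 2 ≤ GW W := by
  obtain ⟨n, hn⟩ : ∃ n : ℕ, n = ⌊Real.exp W⌋₊ := ⟨_, rfl⟩
  have h1 : 1 ≤ Real.exp W := Real.one_le_exp hW
  have hn1 : 1 ≤ n := by rw [hn]; exact Nat.le_floor (by exact_mod_cast h1)
  have hn2 : (n : ℝ) ≤ Real.exp W := by rw [hn]; exact Nat.floor_le (by positivity)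
  have hn3 : Real.exp W < n + 1 := by rw [hn]; exact Nat.lt_floor_add_one _
  have h2 : ((n + 1 : ℕ) : ℝ) ≤ Real.exp (W + 1) := by
    rw [Real.exp_add]
    have := Real.exp_one_gt_d9
    push_cast
    nlinarith
  have h3 := AntitoneOn.integral_le_sum_Ico (f := fun t : ℝ => (W - Real.log t) / t) (a := 1) (b := n + 1)
    (by omega) ((anti W).mono (Icc_subset_Icc (by norm_num) h2))
  have h4 : Finset.Ico 1 (n + 1) = Finset.Icc 1 n := by
    ext m
    simp only [Finset.mem_Ico, Finset.mem_Icc]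
    omega
  rw [h4, prim W (by norm_num) (by push_cast; linarith)] at h3
  unfold GW
  rw [← hn]
  refine le_trans ?_ h3
  push_cast
  rw [Real.log_one]
  have h5 : W < Real.log (n + 1) := by
    rw [Real.lt_log_iff_exp_lt (by positivity)]
    exact hn3
  have h6 : Real.log (n + 1) ≤ W + 1 := by
    rw [Real.log_le_iff_le_exp (by positivity)]
    exact_mod_cast h2
  nlinarith

lemma GW_up (W : ℝ) (hW : 0 ≤ W) : GW W ≤ W ^ 2 / 2 + W := by
  obtain ⟨n, hn⟩ : ∃ n : ℕ, n = ⌊Real.exp W⌋₊ := ⟨_, rfl⟩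
  have h1 : 1 ≤ Real.exp W := Real.one_le_exp hW
  have hn1 : 1 ≤ n := by rw [hn]; exact Nat.le_floor (by exact_mod_cast h1)
  have hn2 : (n : ℝ) ≤ Real.exp W := by rw [hn]; exact Nat.floor_le (by positivity)
  have h2 : (n : ℝ) ≤ Real.exp (W + 1) := hn2.trans (Real.exp_le_exp.2 (by linarith))
  have h3 := AntitoneOn.sum_le_integral_Ico (f := fun t : ℝ => (W - Real.log t) / t) (a := 1) (b := n)
    hn1 ((anti W).mono (Icc_subset_Icc (by norm_num) h2))
  rw [prim W (by norm_num) (by exact_mod_cast hn1)] at h3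
  unfold GW
  rw [← hn]
  have h4 : Finset.Icc 1 n = insert 1 ((Finset.Ico 1 n).image (fun i => i + 1)) := by
    ext m
    simp only [Finset.mem_Icc, Finset.mem_insert, Finset.mem_image, Finset.mem_Ico]
    constructor
    · rintro ⟨h, h'⟩
      rcases Nat.lt_or_ge 1 m with h5 | h5
      · exact Or.inr ⟨m - 1, ⟨by omega, by omega⟩, by omega⟩
      · exact Or.inl (by omega)
    · rintro (rfl | ⟨i, ⟨h5, h6⟩, rfl⟩)
      · exact ⟨le_rfl, hn1⟩
      · constructor <;> omega
  rw [h4, Finset.sum_insert (by simp), Finset.sum_image (by intro a _ b _ hab; simpa using hab)]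
  push_cast at h3 ⊢
  rw [Real.log_one] at h3 ⊢
  have h5 : W * Real.log n - Real.log n ^ 2 / 2 ≤ W ^ 2 / 2 := by nlinarith [sq_nonneg (W - Real.log n)]
  have h6 : (W - 0) / 1 = W := by ring
  rw [h6]
  linarith

lemma GW_lim : Tendsto (fun W : ℝ => GW W / W ^ 2) atTop (𝓝 (1 / 2)) := by
  have h1 : Tendsto (fun W : ℝ => 1 / 2 - 1 / 2 * (W ^ 2)⁻¹) atTop (𝓝 (1 / 2)) := by
    have := (tendsto_pow_atTop (α := ℝ) (n := 2) (by norm_num)).inv_tendsto_atTop
    have := (this.const_mul (1 / 2)).const_sub (1 / 2)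
    simpa using this
  have h2 : Tendsto (fun W : ℝ => 1 / 2 + W⁻¹) atTop (𝓝 (1 / 2)) := by
    have := tendsto_inv_atTop_zero (𝕜 := ℝ)
    have := this.const_add (1 / 2)
    simpa using this
  refine tendsto_of_tendsto_of_tendsto_of_le_of_le' h1 h2 ?_ ?_
  · filter_upwards [eventually_gt_atTop (0:ℝ)] with W hW
    rw [le_div_iff₀ (by positivity)]
    have := GW_low W hW.le
    have h3 : (1 / 2 - 1 / 2 * (W ^ 2)⁻¹) * W ^ 2 = W ^ 2 / 2 - 1 / 2 := by field_simp
    rw [h3]
    exact this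
  · filter_upwards [eventually_gt_atTop (0:ℝ)] with W hW
    rw [div_le_iff₀ (by positivity)]
    have := GW_up W hW.le
    have h3 : (1 / 2 + W⁻¹) * W ^ 2 = W ^ 2 / 2 + W := by field_simp
    rw [h3]
    exact this

/-! ## the weights -/

/-- `∑_{g ≤ e^L} (wt g / g) (L - log g)` -/
noncomputable def TT (L : ℝ) : ℝ := ∑ g ∈ Finset.Icc 1 ⌊Real.exp L⌋₊, wt g / g * (L - Real.log g)

/-- `∑_{g ≤ e^L} wt g / g` -/
noncomputable def UU (L : ℝ) : ℝ := ∑ g ∈ Finset.Icc 1 ⌊Real.exp L⌋₊, wt g / g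

lemma UU_nonneg (L : ℝ) : 0 ≤ UU L := by
  unfold UU
  refine Finset.sum_nonneg fun g hg => ?_
  exact div_nonneg (wt_mem (Finset.mem_Icc.1 hg).1).1 (Nat.cast_nonneg _)

lemma UU_le {L : ℝ} (hL : 0 ≤ L) : UU L ≤ 2 * (1 + L) := by
  unfold UU
  calc ∑ g ∈ Finset.Icc 1 ⌊Real.exp L⌋₊, wt g / g ≤ ∑ g ∈ Finset.Icc 1 ⌊Real.exp L⌋₊, 2 * (1 / (g : ℝ)) := by
        refine Finset.sum_le_sum fun g hg => ?_
        have := (wt_mem (Finset.mem_Icc.1 hg).1).2
        rw [mul_one_div]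
        gcongr
    _ = 2 * ∑ g ∈ Finset.Icc 1 ⌊Real.exp L⌋₊, 1 / (g : ℝ) := by rw [Finset.mul_sum]
    _ ≤ _ := by
        have := harm_le hL
        linarith

lemma TT_eq (L : ℝ) : TT L = ∑' d : ℕ, mu d / (d : ℝ) ^ 3 * GW (L - Real.log d) := by
  obtain ⟨n, hn⟩ : ∃ n : ℕ, n = ⌊Real.exp L⌋₊ := ⟨_, rfl⟩
  have h1 : TT L = ∑ g ∈ Finset.Icc 1 n, ∑ d ∈ g.divisors,
      (fun d e : ℕ => mu d / (d : ℝ) ^ 3 * ((L - Real.log d - Real.log e) / e)) d (g / d) := by
    unfold TT
    rw [← hn]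
    refine Finset.sum_congr rfl fun g hg => ?_
    have hg1 := (Finset.mem_Icc.1 hg).1
    unfold wt
    rw [Finset.sum_div, Finset.sum_mul]
    refine Finset.sum_congr rfl fun d hd => ?_
    obtain ⟨e, he⟩ := Nat.dvd_of_mem_divisors hd
    have hd0 : 0 < d := Nat.pos_of_mem_divisors hd
    have he0 : 0 < e := by
      rcases Nat.eq_zero_or_pos e with h0 | h0
      · simp [h0] at he
        omega
      · exact h0
    have hdR : (0 : ℝ) < d := by exact_mod_cast hd0
    have heR : (0 : ℝ) < e := by exact_mod_cast he0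
    simp only
    rw [he, Nat.mul_div_cancel_left e hd0]
    push_cast
    rw [Real.log_mul hdR.ne' heR.ne']
    field_simp
    ring
  rw [h1, sum_divisors_swap n (fun d e : ℕ => mu d / (d : ℝ) ^ 3 * ((L - Real.log d - Real.log e) / e))]
  have h2 : ∀ d ∈ Finset.Icc 1 n, ∑ e ∈ Finset.Icc 1 (n / d),
      mu d / (d : ℝ) ^ 3 * ((L - Real.log d - Real.log e) / e) = mu d / (d : ℝ) ^ 3 * GW (L - Real.log d) := by
    intro d hd
    have hd1 := (Finset.mem_Icc.1 hd).1
    unfold GW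
    rw [Finset.mul_sum]
    have h3 : ⌊Real.exp (L - Real.log d)⌋₊ = n / d := by
      rw [Real.exp_sub, Real.exp_log (by exact_mod_cast hd1), Nat.floor_div_natCast, ← hn]
    rw [h3]
  rw [Finset.sum_congr rfl h2]
  symm
  apply tsum_eq_sum
  intro d hd
  rcases Nat.eq_zero_or_pos d with h0 | h0
  · subst h0
    simp [mu]
  · have h4 : n < d := by
      by_contra h
      exact hd (Finset.mem_Icc.2 ⟨h0, by omega⟩)
    rw [hn, Nat.floor_lt (Real.exp_pos L).le] at h4
    have h5 : L < Real.log d := by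
      rw [Real.lt_log_iff_exp_lt (by exact_mod_cast h0)]
      exact h4
    rw [GW_neg (by linarith), mul_zero]

lemma mu3_summable : Summable fun d : ℕ => 1 / (d : ℝ) ^ 3 := Real.summable_one_div_nat_pow.2 (by norm_num)

/-- `∑ μ(d)/d³` -/
noncomputable def mu3 : ℝ := ∑' d : ℕ, mu d / (d : ℝ) ^ 3

lemma TT_lim : Tendsto (fun L : ℝ => TT L / L ^ 2) atTop (𝓝 (mu3 / 2)) := by
  have h1 : Tendsto (fun L : ℝ => ∑' d : ℕ, mu d / (d : ℝ) ^ 3 * (GW (L - Real.log d) / L ^ 2)) atTop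
      (𝓝 (∑' d : ℕ, mu d / (d : ℝ) ^ 3 * (1 / 2))) := by
    refine tendsto_tsum_of_dominated_convergence (bound := fun d : ℕ => 1 / (d : ℝ) ^ 3 * 4)
      (mu3_summable.mul_right 4) ?_ ?_
    · intro d
      refine Tendsto.const_mul _ ?_
      have e1 : Tendsto (fun L : ℝ => L - Real.log d) atTop atTop :=
        tendsto_atTop_add_const_right _ _ tendsto_id
      have e2 := GW_lim.comp e1
      have e3 : Tendsto (fun L : ℝ => ((L - Real.log d) / L) ^ 2) atTop (𝓝 1) := by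
        have : Tendsto (fun L : ℝ => 1 - Real.log d * L⁻¹) atTop (𝓝 1) := by
          have := (tendsto_inv_atTop_zero (𝕜 := ℝ)).const_mul (Real.log d)
          have := this.const_sub 1
          simpa using this
        have h4 : Tendsto (fun L : ℝ => (L - Real.log d) / L) atTop (𝓝 1) := by
          refine this.congr' ?_
          filter_upwards [eventually_gt_atTop (0:ℝ)] with L hL
          field_simp
        simpa using h4.pow 2
      have e4 := e2.mul e3
      rw [mul_one] at e4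
      refine e4.congr' ?_
      filter_upwards [eventually_gt_atTop (0:ℝ), eventually_gt_atTop (Real.log d)] with L hL hL2
      simp only [Function.comp]
      have : L - Real.log d ≠ 0 := by linarith
      field_simp
    · filter_upwards [eventually_ge_atTop (1:ℝ)] with L hL d
      rw [norm_mul, Real.norm_eq_abs, Real.norm_eq_abs, abs_div, abs_of_nonneg (by positivity : (0:ℝ) ≤ (d:ℝ) ^ 3),
        abs_of_nonneg (div_nonneg (GW_nonneg _) (by positivity))]
      have h2 := abs_mu_le d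
      have h3 : GW (L - Real.log d) / L ^ 2 ≤ 4 := by
        rw [div_le_iff₀ (by positivity)]
        rcases lt_or_ge (L - Real.log d) 0 with h4 | h4
        · rw [GW_neg h4]
          positivity
        · refine (GW_le _ h4).trans ?_
          have h5 : 0 ≤ Real.log d := Real.log_natCast_nonneg d
          nlinarith
      have h6 : 0 ≤ GW (L - Real.log d) / L ^ 2 := div_nonneg (GW_nonneg _) (by positivity)
      gcongr
  rw [tsum_mul_right, mul_one_div] at h1
  refine h1.congr fun L => ?_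
  rw [TT_eq, ← tsum_div_const]
  refine tsum_congr fun d => by ring

lemma mu3_mul : mu3 * ∑' n : ℕ, 1 / (n : ℝ) ^ 3 = 1 := by
  have hs : 1 < (3 : ℂ).re := by norm_num
  have h1 := ArithmeticFunction.LSeries_zeta_mul_Lseries_moebius hs
  have h2 : LSeries (fun n => ((ArithmeticFunction.zeta n : ℕ) : ℂ)) 3 = ((∑' n : ℕ, 1 / (n : ℝ) ^ 3 : ℝ) : ℂ) := by
    unfold LSeries
    rw [Complex.ofReal_tsum]
    refine tsum_congr fun n => ?_
    rcases Nat.eq_zero_or_pos n with h0 | h0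
    · subst h0
      simp
    · rw [LSeries.term_of_ne_zero (by omega)]
      rw [ArithmeticFunction.zeta_apply_ne (by omega)]
      push_cast
      congr 1
      have : ((3 : ℕ) : ℂ) = 3 := by norm_num
      rw [← this, Complex.cpow_natCast]
  have h3 : LSeries (fun n => ((ArithmeticFunction.moebius n : ℤ) : ℂ)) 3 = ((mu3 : ℝ) : ℂ) := by
    unfold LSeries mu3
    rw [Complex.ofReal_tsum]
    refine tsum_congr fun n => ?_
    rcases Nat.eq_zero_or_pos n with h0 | h0
    · subst h0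
      simp [mu]
    · rw [LSeries.term_of_ne_zero (by omega)]
      unfold mu
      push_cast
      congr 1
      have : ((3 : ℕ) : ℂ) = 3 := by norm_num
      rw [← this, Complex.cpow_natCast]
  have h4 : ((∑' n : ℕ, 1 / (n : ℝ) ^ 3 : ℝ) : ℂ) * ((mu3 : ℝ) : ℂ) = 1 := by
    rw [← h2, ← h3]
    exact h1
  have h5 : (∑' n : ℕ, 1 / (n : ℝ) ^ 3) * mu3 = 1 := by exact_mod_cast h4
  rw [mul_comm]
  exact h5

lemma mu3_pos : 0 < mu3 := by
  have h1 := mu3_mul
  have h2 : 0 < ∑' n : ℕ, 1 / (n : ℝ) ^ 3 :=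
    mu3_summable.tsum_pos (fun n => by positivity) 1 (by norm_num)
  by_contra h
  push Not at h
  nlinarith

/-! ## transfer of limits -/

/-- `∑_{g ≤ e^L} (wt g / g) J(L - log g)` -/
noncomputable def SS (J : ℝ → ℝ) (L : ℝ) : ℝ :=
  ∑ g ∈ Finset.Icc 1 ⌊Real.exp L⌋₊, wt g / g * J (L - Real.log g)

lemma SS_bd {J : ℝ → ℝ} {β ε C : ℝ} (h : ∀ V : ℝ, 0 ≤ V → |J V - β * V| ≤ ε * V + C) (L : ℝ) :
    |SS J L - β * TT L| ≤ ε * TT L + C * UU L := by
  have h1 : SS J L - β * TT L = ∑ g ∈ Finset.Icc 1 ⌊Real.exp L⌋₊,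
      wt g / g * (J (L - Real.log g) - β * (L - Real.log g)) := by
    unfold SS TT
    rw [Finset.mul_sum, ← Finset.sum_sub_distrib]
    exact Finset.sum_congr rfl fun g _ => by ring
  have h2 : ε * TT L + C * UU L = ∑ g ∈ Finset.Icc 1 ⌊Real.exp L⌋₊,
      wt g / g * (ε * (L - Real.log g) + C) := by
    unfold TT UU
    rw [Finset.mul_sum, Finset.mul_sum, ← Finset.sum_add_distrib]
    exact Finset.sum_congr rfl fun g _ => by ring
  rw [h1, h2]
  refine (Finset.abs_sum_le_sum_abs _ _).trans (Finset.sum_le_sum fun g hg => ?_)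
  have hw : 0 ≤ wt g / g := div_nonneg (wt_mem (Finset.mem_Icc.1 hg).1).1 (Nat.cast_nonneg _)
  rw [abs_mul, abs_of_nonneg hw]
  have h3 := log_le_of_mem hg
  gcongr
  exact h _ (by linarith)

lemma SS_low {J : ℝ → ℝ} {A C : ℝ} (h : ∀ V : ℝ, 0 ≤ V → A * V - C ≤ J V) (L : ℝ) :
    A * TT L - C * UU L ≤ SS J L := by
  have h2 : A * TT L - C * UU L = ∑ g ∈ Finset.Icc 1 ⌊Real.exp L⌋₊,
      wt g / g * (A * (L - Real.log g) - C) := by
    unfold TT UU
    rw [Finset.mul_sum, Finset.mul_sum, ← Finset.sum_sub_distrib]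
    exact Finset.sum_congr rfl fun g _ => by ring
  rw [h2]
  unfold SS
  refine Finset.sum_le_sum fun g hg => ?_
  have hw : 0 ≤ wt g / g := div_nonneg (wt_mem (Finset.mem_Icc.1 hg).1).1 (Nat.cast_nonneg _)
  have h3 := log_le_of_mem hg
  gcongr
  exact h _ (by linarith)

lemma UU_lim : Tendsto (fun L : ℝ => UU L / L ^ 2) atTop (𝓝 0) := by
  have h1 : Tendsto (fun L : ℝ => 2 * (L⁻¹ + (L ^ 2)⁻¹)) atTop (𝓝 0) := by
    have a1 := tendsto_inv_atTop_zero (𝕜 := ℝ)
    have a2 := (tendsto_pow_atTop (α := ℝ) (n := 2) (by norm_num)).inv_tendsto_atTop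
    have := (a1.add a2).const_mul 2
    simpa using this
  refine squeeze_zero' (Eventually.of_forall fun L => div_nonneg (UU_nonneg L) (by positivity)) ?_ h1
  filter_upwards [eventually_gt_atTop (0:ℝ)] with L hL
  rw [div_le_iff₀ (by positivity)]
  refine (UU_le hL.le).trans (le_of_eq ?_)
  field_simp
  ring

theorem SS_lim {J : ℝ → ℝ} {β : ℝ} (hJ0 : ∀ V, 0 ≤ J V) (hJm : ∀ V W : ℝ, 0 ≤ V → V ≤ W → J V ≤ J W)
    (h : Tendsto (fun V : ℝ => J V / V) atTop (𝓝 β)) :
    Tendsto (fun L : ℝ => SS J L / L ^ 2) atTop (𝓝 (β * (mu3 / 2))) := by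
  rw [Metric.tendsto_nhds]
  intro ε hε
  obtain ⟨η, hη⟩ : ∃ η : ℝ, η = ε / (4 * (mu3 / 2 + 1)) := ⟨_, rfl⟩
  have hm := mu3_pos
  have hη0 : 0 < η := by rw [hη]; positivity
  have hη1 : η * (mu3 / 2 + 1) = ε / 4 := by rw [hη]; field_simp
  obtain ⟨A, hA⟩ := eventually_atTop.1 (Metric.tendsto_nhds.1 h η hη0)
  obtain ⟨B, hB⟩ : ∃ B : ℝ, B = max A 1 := ⟨_, rfl⟩
  have hB1 : 1 ≤ B := by rw [hB]; exact le_max_right _ _
  have hBA : A ≤ B := by rw [hB]; exact le_max_left _ _
  have hbd : ∀ V : ℝ, 0 ≤ V → |J V - β * V| ≤ η * V + (J B + |β| * B) := by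
    intro V hV
    rcases le_or_gt B V with h1 | h1
    · have h2 := hA V (hBA.trans h1)
      rw [Real.dist_eq] at h2
      have hV0 : 0 < V := by linarith
      have h3 : J V - β * V = (J V / V - β) * V := by field_simp
      rw [h3, abs_mul, abs_of_pos hV0]
      have h4 : 0 ≤ J B + |β| * B := by
        have := hJ0 B
        positivity
      have : |J V / V - β| * V ≤ η * V := by gcongr
      linarith
    · have h2 := hJm V B hV h1.le
      have h3 := hJ0 V
      have h4 : |β * V| ≤ |β| * B := by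
        rw [abs_mul, abs_of_nonneg hV]
        gcongr
      have h5 : |J V - β * V| ≤ |J V| + |β * V| := abs_sub _ _
      rw [abs_of_nonneg h3] at h5
      have : 0 ≤ η * V := by positivity
      linarith
  have h1 := Metric.tendsto_nhds.1 TT_lim (min 1 (ε / (4 * (|β| + 1)))) (lt_min one_pos (by positivity))
  have h2 := UU_lim.const_mul (J B + |β| * B)
  rw [mul_zero] at h2
  have h3 := Metric.tendsto_nhds.1 h2 (ε / 4) (by linarith)
  filter_upwards [h1, h3, eventually_gt_atTop (0:ℝ)] with L g1 g2 hL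
  rw [Real.dist_eq] at g1 g2 ⊢
  rw [sub_zero] at g2
  have hL2 : 0 < L ^ 2 := by positivity
  have e1 := SS_bd hbd L
  have e2 : |SS J L / L ^ 2 - β * (TT L / L ^ 2)| ≤ η * (TT L / L ^ 2) + (J B + |β| * B) * (UU L / L ^ 2) := by
    have : SS J L / L ^ 2 - β * (TT L / L ^ 2) = (SS J L - β * TT L) / L ^ 2 := by ring
    rw [this, abs_div, abs_of_pos hL2, div_le_iff₀ hL2]
    refine e1.trans (le_of_eq ?_)
    field_simp
  have g3 := lt_of_lt_of_le g1 (min_le_left _ _)
  have g4 := lt_of_lt_of_le g1 (min_le_right _ _)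
  have g5 := abs_lt.1 g3
  have g6 := abs_lt.1 g2
  have e3 : η * (TT L / L ^ 2) ≤ ε / 4 := by
    rw [← hη1]
    gcongr
    linarith [g5.2]
  have e4 : |β * (TT L / L ^ 2) - β * (mu3 / 2)| ≤ ε / 4 := by
    rw [← mul_sub, abs_mul]
    calc |β| * |TT L / L ^ 2 - mu3 / 2| ≤ |β| * (ε / (4 * (|β| + 1))) := by gcongr
      _ ≤ (|β| + 1) * (ε / (4 * (|β| + 1))) := by gcongr; linarith
      _ = ε / 4 := by field_simp
  have e5 : |SS J L / L ^ 2 - β * (mu3 / 2)| ≤
      |SS J L / L ^ 2 - β * (TT L / L ^ 2)| + |β * (TT L / L ^ 2) - β * (mu3 / 2)| := abs_sub_le _ _ _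
  linarith [g6.2]

theorem SS_top {J : ℝ → ℝ} (hJ0 : ∀ V, 0 ≤ J V) (h : Tendsto (fun V : ℝ => J V / V) atTop atTop) :
    Tendsto (fun L : ℝ => SS J L / L ^ 2) atTop atTop := by
  have hm := mu3_pos
  rw [tendsto_atTop]
  intro A
  obtain ⟨a, ha⟩ : ∃ a : ℝ, a = (|A| + 1) * (4 / mu3) := ⟨_, rfl⟩
  have ha0 : 0 < a := by rw [ha]; positivity
  obtain ⟨B, hB⟩ := eventually_atTop.1 (tendsto_atTop.1 h a)
  have hbd : ∀ V : ℝ, 0 ≤ V → a * V - a * (|B| + 1) ≤ J V := by
    intro V hV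
    rcases le_or_gt (max B 1) V with h1 | h1
    · have h2 := hB V ((le_max_left _ _).trans h1)
      have hV0 : 0 < V := by linarith [le_max_right B 1]
      rw [le_div_iff₀ hV0] at h2
      have : 0 ≤ a * (|B| + 1) := by positivity
      linarith
    · have h2 : V ≤ |B| + 1 := by
        refine h1.le.trans (max_le ?_ ?_)
        · have := le_abs_self B
          linarith
        · have := abs_nonneg B
          linarith
      have h3 : a * V ≤ a * (|B| + 1) := by gcongr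
      have := hJ0 V
      linarith
  have h1 := TT_lim.eventually (lt_mem_nhds (show mu3 / 4 < mu3 / 2 by linarith))
  have h2 := UU_lim.const_mul (a * (|B| + 1))
  rw [mul_zero] at h2
  have h3 := h2.eventually (gt_mem_nhds one_pos)
  filter_upwards [h1, h3, eventually_gt_atTop (0:ℝ)] with L g1 g2 hL
  have hL2 : 0 < L ^ 2 := by positivity
  have e1 := SS_low hbd L
  have e2 : a * (TT L / L ^ 2) - a * (|B| + 1) * (UU L / L ^ 2) ≤ SS J L / L ^ 2 := by
    rw [le_div_iff₀ hL2]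
    refine le_trans (le_of_eq ?_) e1
    field_simp
  have e3 : |A| + 1 ≤ a * (TT L / L ^ 2) := by
    have : a * (mu3 / 4) = |A| + 1 := by rw [ha]; field_simp
    rw [← this]
    gcongr
  have := le_abs_self A
  linarith

end Pool.Agent.R305.FM
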