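import Pool.Agent.R305.FM.F3
import Pool.Agent.R305.FM.F4

set_option autoImplicit false

/-! # The integral of the mean square discrepancy -/

namespace Pool.Agent.R305.FM

open MeasureTheory Filter Topology Set
open H353.FB
open Pool.Agent.W120.WM (ZC NT)

/-- `∫_0^V h²` -/
noncomputable def IH (V : ℝ) : ℝ := ∫ v in (0:ℝ)..V, ‖hC v‖ ^ 2

lemma subst_exp (G : ℝ → ℝ) {x : ℝ} (hx : 1 ≤ x) :
    ∫ u in (1:ℝ)..x, G u = ∫ v in (0:ℝ)..(Real.log x), Real.exp v * G (Real.exp v) := by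
  have hL : 0 ≤ Real.log x := Real.log_nonneg hx
  rw [intervalIntegral.integral_of_le hx, intervalIntegral.integral_of_le hL]
  have himg : Real.exp '' (Ioc 0 (Real.log x)) = Ioc 1 x := by
    ext u
    constructor
    · rintro ⟨v, ⟨h1, h2⟩, rfl⟩
      refine ⟨by simpa using Real.exp_lt_exp.2 h1, ?_⟩
      rw [← Real.le_log_iff_exp_le (by linarith)]
      exact h2
    · rintro ⟨h1, h2⟩
      refine ⟨Real.log u, ⟨Real.log_pos h1, Real.log_le_log (by linarith) h2⟩, Real.exp_log (by linarith)⟩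
  rw [← himg, integral_image_eq_integral_abs_deriv_smul measurableSet_Ioc
    (fun v _ => (Real.hasDerivAt_exp v).hasDerivWithinAt) (Real.exp_injective.injOn)]
  refine setIntegral_congr_fun measurableSet_Ioc fun v _ => ?_
  simp only [abs_of_pos (Real.exp_pos v), smul_eq_mul]

lemma Mx_floor (u : ℝ) (g m : ℕ) : Mx ((⌊u⌋₊ : ℝ) / g / m) = Mx (u / g / m) := by
  unfold Mx
  rw [Nat.floor_div_natCast, Nat.floor_div_natCast, Nat.floor_natCast, Nat.floor_div_natCast,
    Nat.floor_div_natCast]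

lemma HH_floor (u : ℝ) (g : ℕ) : HH ((⌊u⌋₊ : ℝ) / g) = HH (u / g) := by
  unfold HH
  rw [Nat.floor_div_natCast, Nat.floor_natCast, Nat.floor_div_natCast]
  exact Finset.sum_congr rfl fun m _ => by rw [Mx_floor]

lemma HH_zero {y : ℝ} (h : y < 1) : HH y = 0 := by
  unfold HH
  rw [Nat.floor_eq_zero.2 h]
  simp

lemma norm_hC_sq (v : ℝ) : ‖hC v‖ ^ 2 = HH (Real.exp v) ^ 2 * Real.exp (-v) := by
  unfold hC
  rw [Complex.norm_real, Real.norm_eq_abs, sq_abs, mul_pow, ← Real.exp_nat_mul]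
  congr 2
  push_cast
  ring

lemma norm_fC_sq (v : ℝ) : ‖fC v‖ ^ 2 = Mx (Real.exp v) ^ 2 * Real.exp (-v) := by
  unfold fC
  rw [Complex.norm_real, Real.norm_eq_abs, sq_abs, mul_pow, ← Real.exp_nat_mul]
  congr 2
  push_cast
  ring

lemma shift_eq {V L : ℝ} (hL : 0 ≤ L) (hLV : L ≤ V) :
    ∫ v in (0:ℝ)..V, ‖hC (v - L)‖ ^ 2 = IH (V - L) := by
  rw [intervalIntegral.integral_comp_sub_right (fun v => ‖hC v‖ ^ 2) L, zero_sub]
  have h1 : ∫ v in (-L)..(0:ℝ), ‖hC v‖ ^ 2 = 0 := by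
    rw [intervalIntegral.integral_of_le (by linarith), integral_Ioc_eq_integral_Ioo]
    have : ∀ v ∈ Ioo (-L) (0:ℝ), ‖hC v‖ ^ 2 = 0 := by
      intro v hv
      rw [hC_ad.neg v hv.2]
      simp
    rw [setIntegral_congr_fun measurableSet_Ioo this]
    simp
  rw [← intervalIntegral.integral_add_adjacent_intervals (hC_ad.int_sq (-L) 0) (hC_ad.int_sq 0 (V - L)), h1,
    zero_add]
  rfl

/-- the exact formula for the integral -/
theorem int_eq {x : ℝ} (hx : 1 ≤ x) : ∫ u in (1:ℝ)..x, DD ⌊u⌋₊ / u ^ 2 =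
    1 / 4 * (1 - 1 / x) + 1 / 12 * SS IH (Real.log x) := by
  have hx0 : 0 < x := by linarith
  have hL : 0 ≤ Real.log x := Real.log_nonneg hx
  rw [subst_exp (fun u => DD ⌊u⌋₊ / u ^ 2) hx]
  set N := ⌊Real.exp (Real.log x)⌋₊ with hN
  have h1 : ∫ v in (0:ℝ)..(Real.log x), Real.exp v * (DD ⌊Real.exp v⌋₊ / Real.exp v ^ 2) =
      ∫ v in (0:ℝ)..(Real.log x), (1 / 4 * Real.exp (-v) +
        ∑ g ∈ Finset.Icc 1 N, (1 / 12) * (wt g / g) * ‖hC (v - Real.log g)‖ ^ 2) := by
    apply intervalIntegral.integral_congr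
    intro v hv
    rw [uIcc_of_le hL] at hv
    have hn1 : 1 ≤ ⌊Real.exp v⌋₊ := Nat.le_floor (by exact_mod_cast Real.one_le_exp hv.1)
    simp only
    rw [DD_eq hn1]
    have h2 : ∑ g ∈ Finset.Icc 1 ⌊Real.exp v⌋₊, wt g * HH ((⌊Real.exp v⌋₊ : ℝ) / g) ^ 2 =
        ∑ g ∈ Finset.Icc 1 N, wt g * HH (Real.exp v / g) ^ 2 := by
      have h3 : ∑ g ∈ Finset.Icc 1 ⌊Real.exp v⌋₊, wt g * HH ((⌊Real.exp v⌋₊ : ℝ) / g) ^ 2 =
          ∑ g ∈ Finset.Icc 1 ⌊Real.exp v⌋₊, wt g * HH (Real.exp v / g) ^ 2 :=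
        Finset.sum_congr rfl fun g _ => by rw [HH_floor]
      rw [h3]
      apply Finset.sum_subset (Finset.Icc_subset_Icc_right (floor_mono hv.2))
      intro g hg hg2
      rw [Finset.mem_Icc] at hg hg2
      have h4 : ⌊Real.exp v⌋₊ < g := by
        by_contra h
        exact hg2 ⟨hg.1, by omega⟩
      have h5 : Real.exp v < g := (Nat.floor_lt (Real.exp_pos v).le).1 h4
      have hg0 : (0 : ℝ) < g := by exact_mod_cast hg.1
      rw [HH_zero (by rw [div_lt_one hg0]; exact h5)]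
      ring
    rw [h2, Finset.mul_sum]
    have h6 : Real.exp v * ((1 / 4 + ∑ g ∈ Finset.Icc 1 N, 1 / 12 * (wt g * HH (Real.exp v / g) ^ 2)) /
        Real.exp v ^ 2) = (1 / 4 + ∑ g ∈ Finset.Icc 1 N, 1 / 12 * (wt g * HH (Real.exp v / g) ^ 2)) *
        Real.exp (-v) := by
      rw [Real.exp_neg]
      field_simp
    rw [h6, add_mul, Finset.sum_mul]
    congr 1
    refine Finset.sum_congr rfl fun g hg => ?_
    rw [Finset.mem_Icc] at hg
    have hg0 : (0 : ℝ) < g := by exact_mod_cast hg.1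
    rw [norm_hC_sq, exp_div hg.1]
    have h7 : Real.exp (-(v - Real.log g)) = g * Real.exp (-v) := by
      rw [show -(v - Real.log g) = Real.log g + -v by ring, Real.exp_add, Real.exp_log hg0]
    rw [h7]
    field_simp
  rw [h1]
  have i1 : IntervalIntegrable (fun v : ℝ => 1 / 4 * Real.exp (-v)) volume 0 (Real.log x) :=
    Continuous.intervalIntegrable (by fun_prop) _ _
  have i2 : ∀ g ∈ Finset.Icc 1 N, IntervalIntegrable (fun v : ℝ => (1 / 12) * (wt g / g) *
      ‖hC (v - Real.log g)‖ ^ 2) volume 0 (Real.log x) := by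
    intro g _
    apply IntervalIntegrable.const_mul
    have := (hC_ad.int_sq (0 - Real.log g) (Real.log x - Real.log g)).comp_sub_right (Real.log g)
    simpa using this
  have i3 : IntervalIntegrable (fun v : ℝ => ∑ g ∈ Finset.Icc 1 N, (1 / 12) * (wt g / g) *
      ‖hC (v - Real.log g)‖ ^ 2) volume 0 (Real.log x) := by
    have h := IntervalIntegrable.sum (Finset.Icc 1 N) i2
    have e : (∑ g ∈ Finset.Icc 1 N, fun v : ℝ => (1 / 12) * (wt g / g) * ‖hC (v - Real.log g)‖ ^ 2) =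
        fun v => ∑ g ∈ Finset.Icc 1 N, (1 / 12) * (wt g / g) * ‖hC (v - Real.log g)‖ ^ 2 := by
      ext v; simp
    rw [← e]
    exact h
  rw [intervalIntegral.integral_add i1 i3, intervalIntegral.integral_const_mul,
    intervalIntegral.integral_finsetSum i2]
  have h8 : ∫ v in (0:ℝ)..(Real.log x), Real.exp (-v) = 1 - 1 / x := by
    rw [intervalIntegral.integral_comp_neg (fun v => Real.exp v), integral_exp, neg_zero, Real.exp_zero,
      Real.exp_neg, Real.exp_log hx0, one_div]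
  rw [h8]
  congr 1
  unfold SS
  rw [Finset.mul_sum]
  refine Finset.sum_congr rfl fun g hg => ?_
  have hg' := Finset.mem_Icc.1 hg
  rw [intervalIntegral.integral_const_mul,
    shift_eq (Real.log_nonneg (by exact_mod_cast hg'.1)) (log_le_of_mem hg)]
  ring

lemma IH_nonneg (V : ℝ) : 0 ≤ IH V := by
  unfold IH
  rcases le_or_gt 0 V with h | h
  · exact intervalIntegral.integral_nonneg h fun v _ => by positivity
  · rw [intervalIntegral.integral_symm, intervalIntegral.integral_of_le h.le,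
      integral_Ioc_eq_integral_Ioo]
    have : ∀ v ∈ Ioo V (0:ℝ), ‖hC v‖ ^ 2 = 0 := by
      intro v hv
      rw [hC_ad.neg v hv.2]
      simp
    rw [setIntegral_congr_fun measurableSet_Ioo this]
    simp

lemma IH_mono (V W : ℝ) (_ : 0 ≤ V) (hW : V ≤ W) : IH V ≤ IH W := by
  unfold IH
  rw [← intervalIntegral.integral_add_adjacent_intervals (hC_ad.int_sq 0 V) (hC_ad.int_sq V W)]
  have : 0 ≤ ∫ v in V..W, ‖hC v‖ ^ 2 := intervalIntegral.integral_nonneg hW fun v _ => by positivity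
  linarith

/-- the integral of the mean square discrepancy -/
noncomputable def FI (x : ℝ) : ℝ := ∫ u in (1:ℝ)..x, DD ⌊u⌋₊ / u ^ 2

theorem lim_yes (hZ : ZC) :
    Tendsto (fun x : ℝ => FI x / Real.log x ^ 2) atTop (𝓝 (SH * mu3 / 24)) := by
  have h1 := SS_lim IH_nonneg IH_mono (lim_h hZ)
  have h2 := (h1.comp Real.tendsto_log_atTop).const_mul (1 / 12)
  have h3 : Tendsto (fun x : ℝ => 1 / 4 * (1 - 1 / x) / Real.log x ^ 2) atTop (𝓝 0) := by
    apply Tendsto.div_atTop (a := 1 / 4)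
    · have := (tendsto_inv_atTop_zero (𝕜 := ℝ)).const_sub 1
      have := this.const_mul (1 / 4)
      simpa using this
    · exact (tendsto_pow_atTop (by norm_num)).comp Real.tendsto_log_atTop
  have h4 := h3.add h2
  have e : 0 + 1 / 12 * (SH * (mu3 / 2)) = SH * mu3 / 24 := by ring
  rw [e] at h4
  refine h4.congr' ?_
  filter_upwards [eventually_ge_atTop (1:ℝ)] with x hx
  unfold FI
  rw [int_eq hx]
  simp only [Function.comp]
  ring

theorem lim_no (hZ : ¬ ZC) : Tendsto (fun x : ℝ => FI x / Real.log x ^ 2) atTop atTop := by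
  have h0 : Tendsto (fun V : ℝ => (∫ v in (0:ℝ)..V, ‖fC v‖ ^ 2) / V) atTop atTop := by
    have h1 := (Pool.Agent.W120.WM.final3 1 one_pos le_rfl).2 hZ
    have h2 := h1.comp Real.tendsto_exp_atTop
    refine h2.congr' ?_
    filter_upwards [eventually_gt_atTop (0:ℝ)] with V hV
    simp only [Function.comp]
    rw [Real.log_exp, sub_self, Real.rpow_zero]
    congr 1
    unfold Pool.Agent.W120.WM.msq
    rw [subst_exp _ (Real.one_le_exp hV.le), Real.log_exp]
    apply intervalIntegral.integral_congr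
    intro v _
    simp only
    rw [norm_fC_sq]
    have e1 : (∑ n ∈ Finset.Icc 1 ⌊Real.exp v⌋₊, ((ArithmeticFunction.moebius n : ℤ) : ℝ)) =
        Mx (Real.exp v) := rfl
    rw [e1, Real.exp_neg]
    field_simp
  have hK : 0 < KK ^ 2 := by
    have : 0 < KK := am_summable.tsum_pos am_nonneg 1 (by unfold am; norm_num)
    positivity
  have h1 : Tendsto (fun V : ℝ => IH V / V) atTop atTop := by
    have h2 := h0.atTop_div_const hK
    refine tendsto_atTop_mono' atTop ?_ h2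
    filter_upwards [eventually_gt_atTop (0:ℝ)] with V hV
    have := f_le_h hV.le
    unfold IH
    rw [div_div, div_le_div_iff₀ (by positivity) hV]
    nlinarith
  have h2 := (SS_top IH_nonneg h1).comp Real.tendsto_log_atTop
  have h3 := h2.const_mul_atTop (show (0:ℝ) < 1 / 12 by norm_num)
  refine tendsto_atTop_mono' atTop ?_ h3
  filter_upwards [eventually_ge_atTop (1:ℝ)] with x hx
  unfold FI
  rw [int_eq hx]
  simp only [Function.comp]
  have h4 : 0 ≤ 1 / 4 * (1 - 1 / x) := by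
    have : 1 / x ≤ 1 := by rw [div_le_one (by linarith)]; exact hx
    linarith
  have h5 : 1 / 12 * (SS IH (Real.log x) / Real.log x ^ 2) = (1 / 12 * SS IH (Real.log x)) / Real.log x ^ 2 := by
    ring
  rw [h5]
  gcongr
  linarith

end Pool.Agent.R305.FM
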