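import Pool.Agent.R305.FM.F5

set_option autoImplicit false

/-! # Bounds for all `x` and positivity -/

namespace Pool.Agent.R305.FM

open MeasureTheory Filter Topology Set
open H353.FB
open Pool.Agent.W120.WM (ZC NT)
open Pool.Agent.TH223.AP (WM WM_iff_ZC)

lemma SS_IH_le {L L0 : ℝ} (hL : 0 ≤ L) (h : L ≤ L0) : Pool.Agent.R305.FM.SS IH L ≤ 2 * (1 + L0) * IH L0 := by
  have h1 : Pool.Agent.R305.FM.SS IH L ≤ UU L * IH L0 := by
    unfold Pool.Agent.R305.FM.SS UU
    rw [Finset.sum_mul]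
    refine Finset.sum_le_sum fun g hg => ?_
    have hw : 0 ≤ wt g / g := div_nonneg (wt_mem (Finset.mem_Icc.1 hg).1).1 (Nat.cast_nonneg _)
    have h2 : 0 ≤ Real.log g := Real.log_natCast_nonneg g
    have h3 := log_le_of_mem hg
    apply mul_le_mul_of_nonneg_left _ hw
    exact IH_mono _ _ (by linarith) (by linarith)
  refine h1.trans ?_
  have h2 := UU_le hL
  have h3 := IH_nonneg L0
  have h4 : UU L ≤ 2 * (1 + L0) := by linarith
  gcongr

lemma FI_le {x x0 : ℝ} (hx : 1 ≤ x) (h : x ≤ x0) : FI x ≤ 1 + (1 + Real.log x0) * IH (Real.log x0) := by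
  unfold FI
  rw [int_eq hx]
  have h1 := SS_IH_le (Real.log_nonneg hx) (Real.log_le_log (by linarith) h)
  have h2 : 1 / 4 * (1 - 1 / x) ≤ 1 := by
    have : 0 ≤ 1 / x := by positivity
    linarith
  have h3 : 0 ≤ (1 + Real.log x0) * IH (Real.log x0) := by
    have := IH_nonneg (Real.log x0)
    have : 0 ≤ Real.log x0 := Real.log_nonneg (by linarith)
    positivity
  nlinarith

lemma bound_all (hZ : ZC) : ∃ C : ℝ, ∀ x : ℝ, 2 ≤ x → FI x ≤ C * Real.log x ^ 2 := by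
  have h1 := lim_yes hZ
  obtain ⟨c, hc⟩ : ∃ c : ℝ, c = SH * mu3 / 24 := ⟨_, rfl⟩
  rw [← hc] at h1
  obtain ⟨x0, hx0⟩ := eventually_atTop.1 (h1.eventually (gt_mem_nhds (lt_add_one c)))
  obtain ⟨X, hX⟩ : ∃ X : ℝ, X = max x0 2 := ⟨_, rfl⟩
  have hX2 : 2 ≤ X := by rw [hX]; exact le_max_right _ _
  have hX0 : x0 ≤ X := by rw [hX]; exact le_max_left _ _
  obtain ⟨B, hB⟩ : ∃ B : ℝ, B = 1 + (1 + Real.log X) * IH (Real.log X) := ⟨_, rfl⟩
  have hB0 : 0 ≤ B := by
    rw [hB]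
    have := IH_nonneg (Real.log X)
    have : 0 ≤ Real.log X := Real.log_nonneg (by linarith)
    positivity
  have hl2 : 0 < Real.log 2 := Real.log_pos (by norm_num)
  refine ⟨|c + 1| + B / Real.log 2 ^ 2, fun x hx => ?_⟩
  have hlx : Real.log 2 ≤ Real.log x := Real.log_le_log (by norm_num) hx
  have hlx0 : 0 < Real.log x := by linarith
  rcases le_or_gt X x with h | h
  · have h2 := hx0 x (hX0.trans h)
    rw [div_lt_iff₀ (by positivity)] at h2
    have h3 : (c + 1) * Real.log x ^ 2 ≤ |c + 1| * Real.log x ^ 2 := by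
      gcongr
      exact le_abs_self _
    have h4 : 0 ≤ B / Real.log 2 ^ 2 * Real.log x ^ 2 := by positivity
    nlinarith
  · have h2 := FI_le (x := x) (x0 := X) (by linarith) h.le
    rw [← hB] at h2
    have h3 : B ≤ B / Real.log 2 ^ 2 * Real.log x ^ 2 := by
      rw [div_mul_eq_mul_div, le_div_iff₀ (by positivity)]
      gcongr
    have h4 : 0 ≤ |c + 1| * Real.log x ^ 2 := by positivity
    nlinarith

lemma ZC_of_freq {C : ℝ} (h : ∃ᶠ x : ℝ in atTop, FI x ≤ C * Real.log x ^ 2) : ZC := by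
  by_contra hZ
  have h1 := (lim_no hZ).eventually (eventually_gt_atTop C)
  obtain ⟨x, h2, h3, h4⟩ := (h.and_eventually (h1.and (eventually_gt_atTop (1:ℝ)))).exists
  have : 0 < Real.log x := Real.log_pos h4
  rw [lt_div_iff₀ (by positivity)] at h3
  linarith

lemma SH_pos (hZ : ZC) : 0 < SH := by
  obtain ⟨ρ, hρ⟩ := Pool.Agent.TH223.AP.exists_zero
  have h1 := hZ.1 ρ hρ
  have h2 : riemannZeta (1 + ρ) ≠ 0 := by
    apply riemannZeta_ne_zero_of_one_le_re
    rw [Complex.add_re, Complex.one_re, h1.1]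
    norm_num
  have h3 : ρ ≠ 0 := by
    rintro rfl
    simp at h1
  have h4 : 0 < ‖riemannZeta (1 + ρ)‖ := norm_pos_iff.2 h2
  have h5 : 0 < ‖ρ * deriv riemannZeta ρ‖ := norm_pos_iff.2 (mul_ne_zero h3 h1.2)
  exact (SH_summable hZ).tsum_pos (fun _ => by positivity) ⟨ρ, hρ⟩ (by positivity)

end Pool.Agent.R305.FM
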